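import Pool.Agent.H.MP_830e61_lc.CH.Defs
import Pool.Agent.H.MP_830e61_lc.VS.Bnd

/-!
# The bound

`n = 0`: both sides are `1`. `n ≥ 1`: `2 ^ mch n ≤ dcl n` and `mch n * (2 * n) ^ 2 + 1 ≤ dcl n`, where
`dcl n = 2 ^ n * (bound n * (2 * n)) + 1`, `bound n = ((N + 1) ^ N) ^ 2`, `N = (n + 1) ^ (n + 1)`: `mch n ≤ (n + 1) * N`
(as `2 ^ n ≤ (n + 1) ^ n`), `2 ^ (n + 1) ≤ N + 1`, so `2 ^ mch n ≤ (N + 1) ^ N`. Then
`(mch n * (2 * n) ^ 2 + 1) ^ 2 ^ mch n ≤ dcl n ^ dcl n ≤ bnd n`.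
-/

set_option autoImplicit false

namespace Pool.Agent.H.MP_830e61_lc.CH

open Pool.Agent.H.MP_830e61_lc Pool.Agent.H.MP_830e61_lc.VS

theorem bd_ar (n : ℕ) : (mch n * (2 * n) ^ 2 + 1) ^ 2 ^ mch n ≤ bnd n := by
  have hb0 : 1 ≤ bound n := Nat.one_le_pow _ _ (Nat.pow_pos (Nat.succ_pos _))
  have hd0 : 1 ≤ dcl n := Nat.succ_le_succ (Nat.zero_le _)
  -- the last step
  have hlast : dcl n ^ dcl n ≤ bnd n := by
    have h1 : 1 ≤ dcl n ^ dcl n := Nat.one_le_pow _ _ hd0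
    calc dcl n ^ dcl n ≤ (dcl n ^ dcl n) ^ 2 := Nat.le_self_pow two_ne_zero _
      _ ≤ bound n * (dcl n ^ dcl n) ^ 2 := Nat.le_mul_of_pos_left _ hb0
  rcases Nat.eq_zero_or_pos n with rfl | hn
  · rw [Nat.mul_zero, zero_pow two_ne_zero, Nat.mul_zero, Nat.zero_add, one_pow]
    exact le_trans (Nat.one_le_pow _ _ hd0) hlast
  obtain ⟨N, hN⟩ : ∃ N, N = (n + 1) ^ (n + 1) := ⟨_, rfl⟩
  obtain ⟨B, hB⟩ : ∃ B, B = (N + 1) ^ N := ⟨_, rfl⟩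
  have hbB : bound n = B ^ 2 := by
    rw [hB, hN]
    rfl
  have h1 : mch n ≤ (n + 1) * N := by
    have h2 : 2 ^ n ≤ (n + 1) ^ n := Nat.pow_le_pow_left (by omega) n
    calc mch n = (n + 1) ^ 2 * 2 ^ n := rfl
      _ ≤ (n + 1) ^ 2 * (n + 1) ^ n := Nat.mul_le_mul_left _ h2
      _ = (n + 1) * N := by
        rw [hN]
        ring
  have h3 : 2 ^ mch n ≤ B := by
    have h4 : 2 ^ (n + 1) ≤ N + 1 := by
      have h5 : 2 ^ (n + 1) ≤ (n + 1) ^ (n + 1) := Nat.pow_le_pow_left (by omega) _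
      rw [hN]
      omega
    calc 2 ^ mch n ≤ 2 ^ ((n + 1) * N) := Nat.pow_le_pow_right two_pos h1
      _ = (2 ^ (n + 1)) ^ N := pow_mul _ _ _
      _ ≤ (N + 1) ^ N := Nat.pow_le_pow_left h4 _
      _ = B := hB.symm
  have h6 : (n + 1) ^ 2 ≤ B := by
    have h7 : (n + 1) ^ 2 ≤ mch n := Nat.le_mul_of_pos_right _ (Nat.pow_pos two_pos)
    exact le_trans h7 (le_trans Nat.lt_two_pow_self.le h3)
  have hB1 : 1 ≤ B := le_trans (Nat.one_le_pow _ _ (Nat.succ_pos n)) h6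
  have h8 : bound n ≤ dcl n := by
    have h9 : 1 ≤ 2 ^ n := Nat.one_le_two_pow
    calc bound n ≤ bound n * (2 * n) := Nat.le_mul_of_pos_right _ (by omega)
      _ ≤ 2 ^ n * (bound n * (2 * n)) := Nat.le_mul_of_pos_left _ h9
      _ ≤ dcl n := Nat.le_succ _
  have h10 : 2 ^ mch n ≤ dcl n := by
    refine le_trans h3 (le_trans ?_ h8)
    rw [hbB]
    exact Nat.le_self_pow two_ne_zero _
  have h11 : mch n * (2 * n) ^ 2 + 1 ≤ dcl n := by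
    have h12 : (n + 1) ^ 2 * (2 * n) ≤ bound n := by
      rw [hbB, pow_two B]
      refine Nat.mul_le_mul h6 (le_trans ?_ h6)
      nlinarith
    have h13 : mch n * (2 * n) ^ 2 ≤ 2 ^ n * (bound n * (2 * n)) := by
      calc mch n * (2 * n) ^ 2 = 2 ^ n * ((n + 1) ^ 2 * (2 * n) * (2 * n)) := by
            unfold mch
            ring
        _ ≤ 2 ^ n * (bound n * (2 * n)) :=
          Nat.mul_le_mul_left _ (Nat.mul_le_mul_right _ h12)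
    exact Nat.succ_le_succ h13
  calc (mch n * (2 * n) ^ 2 + 1) ^ 2 ^ mch n ≤ dcl n ^ 2 ^ mch n := Nat.pow_le_pow_left h11 _
    _ ≤ dcl n ^ dcl n := Nat.pow_le_pow_right hd0 h10
    _ ≤ bnd n := hlast

end Pool.Agent.H.MP_830e61_lc.CH
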