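import Pool.Agent.H.MP_830e61_lc.CH.Defs
import Pool.Agent.H.MP_830e61_lc.VS.Gam

/-!
# Prefixes

`lift_R`: let `x'` be an inverse of `x`, `e = x' * x`, `g = v * u`. Then `π (e * g) = π e`, so `e * g` and `e` have a
common inverse, hence `IsInv (e * g) e` (`inv_of_common`, `isInv_idem`), so `e * (e * g) * e = e` and
`x = x * e = x * g * e = x * v * (u * e)`. `lift_L` is dual.
`pre_R`: let `P w` be the statement without its first alternative forms. Prove by `Subsemigroup.closure_induction`
that every `y` satisfies: `P y`, and `P w → P (w * y)` for all `w`. For `y = c ∈ C`: `P c` with `x = c`; given `P w`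
with `x`: if `mu (π (w * c)) = mu (π w)` keep `x`, else `mu (π (w * c)) < mu (π w)` (`mu_right`), take the new
`x = w * c`, `p = w`. At the end `w R x` in `T`: `mu (π x) = mu (π w)`, `w = x * v`, `mu_right` gives
`π x = π x * π v * k`, `k = π u` (surjective), `lift_R`. `pre_L` is dual (with `mu_left`).
-/

set_option autoImplicit false

namespace Pool.Agent.H.MP_830e61_lc.CH

open Pool.Agent.H.MP_830e61_lc Pool.Agent.H.MP_830e61_lc.VS

variable {T J : Type*} [Semigroup T] [Semigroup J]

theorem lift_R (hreg : Regular T) (hc : IdemClosed T) (π : T →ₙ* J)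
    (hker : ∀ a b : T, π a = π b → ∃ x, IsInv a x ∧ IsInv b x) {x v u : T}
    (h : π x = π (x * v * u)) : ∃ w, x = x * v * w := by
  obtain ⟨x', hx⟩ := exists_inv hreg x
  have he : (x' * x) * (x' * x) = x' * x := hx.right
  have hg : π ((x' * x) * (v * u)) = π (x' * x) := by
    have h1 : (x' * x) * (v * u) = x' * (x * v * u) := by simp only [mul_assoc]
    rw [h1, map_mul, ← h, map_mul]
  obtain ⟨y, hy1, hy2⟩ := hker _ _ hg
  have h2 : IsInv ((x' * x) * (v * u)) (x' * x) := inv_of_common hc hy2 hy1 (isInv_idem he)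
  refine ⟨u * (x' * x), ?_⟩
  calc x = x * x' * x := hx.1.symm
    _ = x * (x' * x) := mul_assoc _ _ _
    _ = x * ((x' * x) * ((x' * x) * (v * u)) * (x' * x)) := by rw [h2.2]
    _ = x * ((x' * x) * (x' * x)) * (v * u) * (x' * x) := by simp only [mul_assoc]
    _ = x * (x' * x) * (v * u) * (x' * x) := by rw [he]
    _ = (x * x' * x) * (v * u) * (x' * x) := by simp only [mul_assoc]
    _ = x * (v * u) * (x' * x) := by rw [hx.1]
    _ = x * v * (u * (x' * x)) := by simp only [mul_assoc]

theorem lift_L (hreg : Regular T) (hc : IdemClosed T) (π : T →ₙ* J)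
    (hker : ∀ a b : T, π a = π b → ∃ x, IsInv a x ∧ IsInv b x) {x v u : T}
    (h : π x = π (u * (v * x))) : ∃ w, x = w * (v * x) := by
  obtain ⟨x', hx⟩ := exists_inv hreg x
  have he : (x * x') * (x * x') = x * x' := hx.left
  have hg : π ((u * v) * (x * x')) = π (x * x') := by
    have h1 : (u * v) * (x * x') = (u * (v * x)) * x' := by simp only [mul_assoc]
    rw [h1, map_mul, ← h, map_mul]
  obtain ⟨y, hy1, hy2⟩ := hker _ _ hg
  have h2 : IsInv ((u * v) * (x * x')) (x * x') := inv_of_common hc hy2 hy1 (isInv_idem he)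
  refine ⟨x * x' * u, ?_⟩
  calc x = x * x' * x := hx.1.symm
    _ = ((x * x') * ((u * v) * (x * x')) * (x * x')) * x := by rw [h2.2]
    _ = (x * x') * (u * v) * ((x * x') * (x * x')) * x := by simp only [mul_assoc]
    _ = (x * x') * (u * v) * (x * x') * x := by rw [he]
    _ = (x * x') * (u * v) * (x * x' * x) := by simp only [mul_assoc]
    _ = (x * x') * (u * v) * x := by rw [hx.1]
    _ = x * x' * u * (v * x) := by simp only [mul_assoc]

end Pool.Agent.H.MP_830e61_lc.CH
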