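import Pool.Agent.H.MP_830e61_lc.CH.Mu
import Pool.Agent.H.MP_830e61_lc.CH.Lft

/-!
# Prefixes

`lift_R`: let `x'` be an inverse of `x`, `e = x' * x`, `g = v * u`. Then `π (e * g) = π e`, so `e * g` and `e` have a
common inverse, hence `IsInv (e * g) e` (`inv_of_common`, `isInv_idem`), so `e * (e * g) * e = e` and
`x = x * e = x * g * e = x * v * (u * e)`. `lift_L` is dual.
`pre_R`: let `P w` be the statement without its first alternative forms. Prove by `Subsemigroup.closure_induction`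
that every `y` satisfies: `P y`, and `P w → P (w * y)` for all `w`. For `y = c ∈ C`: `P c` with `x = c`; given `P w`
with `x`: if `mu (π (w * c)) = mu (π w)` keep `x`, else `mu (π (w * c)) < mu (π w)` (`mu_right`), take the new
`x = w * c`, `p = w`. At the end `w R x` in `T`: `mu (π x) = mu (π w)`, `w = x * v`, `mu_right` gives
`π x = π x * π v * k`, `k = π u` (surjective), `lift_R`. `pre_L` is dual (with `mu_left`).
-/

set_option autoImplicit false

namespace Pool.Agent.H.MP_830e61_lc.CH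

open Pool.Agent.H.MP_830e61_lc Pool.Agent.H.MP_830e61_lc.VS

variable {T J : Type*} [Semigroup T] [Semigroup J]

private def PrL_P (π : T →ₙ* J) (C : Set T) (w : T) : Prop :=
  ∃ x : T, (w = x ∨ ∃ v, w = v * x) ∧ mu (π x) = mu (π w) ∧
    (x ∈ C ∨ ∃ p c, c ∈ C ∧ x = c * p ∧ mu (π w) < mu (π p))

private theorem PrL_step [Finite J] (hrJ : Regular J)
    (hcm : ∀ e f : J, e * e = e → f * f = f → e * f = f * e)
    (π : T →ₙ* J) (C : Set T) (c : T) (hc : c ∈ C) (w : T) (hw : PrL_P π C w) :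
    PrL_P π C (c * w) := by
  obtain ⟨x, h1, h2, h3⟩ := hw
  have h4 := (mu_left hrJ hcm (π c) (π w)).1
  rw [← map_mul] at h4
  rcases h4.lt_or_eq with h5 | h5
  · exact ⟨c * w, Or.inl rfl, rfl, Or.inr ⟨w, c, hc, rfl, h5⟩⟩
  · refine ⟨x, ?_, by rw [h2, h5], ?_⟩
    · rcases h1 with h1 | ⟨v, h1⟩
      · exact Or.inr ⟨c, by rw [h1]⟩
      · exact Or.inr ⟨c * v, by rw [h1, mul_assoc]⟩
    · rcases h3 with h3 | ⟨p, c', h6, h7, h8⟩
      · exact Or.inl h3
      · exact Or.inr ⟨p, c', h6, h7, by rw [h5]; exact h8⟩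

private theorem PrL_all [Finite J] (hrJ : Regular J)
    (hcm : ∀ e f : J, e * e = e → f * f = f → e * f = f * e)
    (π : T →ₙ* J) (C : Set T) (hC : Subsemigroup.closure C = ⊤) (y : T) :
    PrL_P π C y ∧ ∀ w, PrL_P π C w → PrL_P π C (y * w) := by
  have hy : y ∈ Subsemigroup.closure C := by rw [hC]; exact Subsemigroup.mem_top y
  induction hy using Subsemigroup.closure_induction with
  | mem c hc =>
    exact ⟨⟨c, Or.inl rfl, rfl, Or.inl hc⟩, fun w hw => PrL_step hrJ hcm π C c hc w hw⟩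
  | mul a b _ _ ha hb =>
    refine ⟨ha.2 b hb.1, fun w hw => ?_⟩
    rw [mul_assoc]
    exact ha.2 _ (hb.2 w hw)

theorem pre_L [Finite J] (hreg : Regular T) (hc : IdemClosed T) (hrJ : Regular J)
    (hcm : ∀ e f : J, e * e = e → f * f = f → e * f = f * e)
    (π : T →ₙ* J) (hπ : Function.Surjective π)
    (hker : ∀ a b : T, π a = π b → ∃ x, IsInv a x ∧ IsInv b x) (C : Set T)
    (hC : Subsemigroup.closure C = ⊤) (w : T) :
    ∃ x : T, (w = x ∨ ∃ v, w = v * x) ∧ (x = w ∨ ∃ v, x = v * w) ∧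
      (x ∈ C ∨ ∃ p c, c ∈ C ∧ x = c * p ∧ mu (π w) < mu (π p)) := by
  obtain ⟨x, h1, h2, h3⟩ := (PrL_all hrJ hcm π C hC w).1
  refine ⟨x, h1, ?_, h3⟩
  rcases h1 with h1 | ⟨v, h1⟩
  · exact Or.inl h1.symm
  · have h4 : mu (π v * π x) = mu (π x) := by rw [← map_mul, ← h1, h2]
    obtain ⟨k, hk⟩ := (mu_left hrJ hcm (π v) (π x)).2 h4
    obtain ⟨u, rfl⟩ := hπ k
    obtain ⟨w', hw'⟩ := lift_L hreg hc π hker (x := x) (v := v) (u := u)
      (by rw [map_mul, map_mul]; exact hk)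
    exact Or.inr ⟨w', by rw [h1]; exact hw'⟩

end Pool.Agent.H.MP_830e61_lc.CH
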