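import Pool.Agent.H.MP_830e61_lc.CH.PrR
import Pool.Agent.H.MP_830e61_lc.CH.PrL

/-!
# The number of elements of a finitely generated orthodox semigroup with finite `T/gamma`

`m = Nat.card J`, `k = C.ncard`, `A 0 = 0`, `A (j + 1) = ((m * A j + 1) * k) ^ 2`.
`brn_step`: `D = C ∪ {p * c | mu z < mu (π p)}`, `D' = C ∪ {c * p | ...}`: finite, at most `(m * a + 1) * k` elements
(the set of the `p` is the union over `y : J` with `mu z < mu y` of fibres of size at most `a`). For `w` with
`π w = z` choose `x ∈ D`, `y ∈ D'` by `pre_R`, `pre_L`; the map `w ↦ (x, y)` is injective on the fibre by `eq_of_H`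
(two elements of the fibre have a common inverse by `hker`; R- and L-relations compose).
`brn`: induction on `j`: the fibres of all `z` with `m + 1 ≤ mu z + j` are finite of size at most `A j`
(`j = 0` is impossible by `mu_le`); `j = m` gives all `z` (`mu_pos`). `m * A j + 1 ≤ (m * k ^ 2 + 1) ^ (2 ^ j - 1)`
(or directly `m * A j + 1 ≤ D ^ (2 ^ j)` with a suitable induction hypothesis), and `T` is the union of `m` fibres.
-/

set_option autoImplicit false

namespace Pool.Agent.H.MP_830e61_lc.CH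

open Pool.Agent.H.MP_830e61_lc Pool.Agent.H.MP_830e61_lc.VS

private theorem BrA_pair {T : Type*} [Semigroup T] (U C : Set T) (V Cf : Finset T)
    (f : T → T → T) [DecidableEq T] (hV : ∀ p ∈ U, p ∈ V) (hC : ∀ c ∈ C, c ∈ Cf) {x : T}
    (hx : x ∈ C ∨ ∃ p c, c ∈ C ∧ x = f p c ∧ p ∈ U) :
    x ∈ Cf ∪ Finset.image₂ f V Cf := by
  rcases hx with h | ⟨p, c, hc, rfl, hp⟩
  · exact Finset.mem_union_left _ (hC _ h)
  · exact Finset.mem_union_right _ (Finset.mem_image₂_of_mem (hV p hp) (hC c hc))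

private theorem BrA_card {T : Type*} (V Cf : Finset T) (f : T → T → T) [DecidableEq T] {N : ℕ}
    (hV : V.card ≤ N) : (Cf ∪ Finset.image₂ f V Cf).card ≤ (N + 1) * Cf.card := by
  have h1 := Finset.card_union_le Cf (Finset.image₂ f V Cf)
  have h2 := Finset.card_image₂_le f V Cf
  have h3 : V.card * Cf.card ≤ N * Cf.card := Nat.mul_le_mul_right _ hV
  calc (Cf ∪ Finset.image₂ f V Cf).card ≤ Cf.card + (Finset.image₂ f V Cf).card := h1
    _ ≤ Cf.card + N * Cf.card := Nat.add_le_add_left (h2.trans h3) _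
    _ = (N + 1) * Cf.card := by ring

theorem brn_step {T J : Type*} [Semigroup T] [Semigroup J] [Finite J] (hreg : Regular T)
    (hc : IdemClosed T) (hrJ : Regular J)
    (hcm : ∀ e f : J, e * e = e → f * f = f → e * f = f * e)
    (π : T →ₙ* J) (hπ : Function.Surjective π)
    (hker : ∀ a b : T, π a = π b → ∃ x, IsInv a x ∧ IsInv b x) (C : Set T) (hf : C.Finite)
    (hC : Subsemigroup.closure C = ⊤) (z : J) (a : ℕ)
    (h : ∀ y : J, mu z < mu y → {w : T | π w = y}.Finite ∧ {w : T | π w = y}.ncard ≤ a) :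
    {w : T | π w = z}.Finite ∧
      {w : T | π w = z}.ncard ≤ ((Nat.card J * a + 1) * C.ncard) ^ 2 := by
  classical
  have := Fintype.ofFinite J
  let g : J → Finset T := fun y => if hy : mu z < mu y then (h y hy).1.toFinset else ∅
  have hg : ∀ y, (g y).card ≤ a := by
    intro y
    by_cases hy : mu z < mu y
    · simp only [g, dif_pos hy]
      rw [← Set.ncard_eq_toFinset_card _ (h y hy).1]
      exact (h y hy).2
    · simp only [g, dif_neg hy, Finset.card_empty]
      exact Nat.zero_le _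
  let V : Finset T := Finset.univ.biUnion g
  have hVc : V.card ≤ Nat.card J * a := by
    rw [Nat.card_eq_fintype_card, ← Finset.card_univ]
    exact Finset.card_biUnion_le_card_mul _ _ _ fun y _ => hg y
  have hV : ∀ p ∈ {p : T | mu z < mu (π p)}, p ∈ V := by
    intro p hp
    have hp' : mu z < mu (π p) := hp
    refine Finset.mem_biUnion.2 ⟨π p, Finset.mem_univ _, ?_⟩
    simp only [g, dif_pos hp']
    rw [Set.Finite.mem_toFinset]
    rfl
  let Cf : Finset T := hf.toFinset
  have hCf : ∀ c ∈ C, c ∈ Cf := fun c hc => hf.mem_toFinset.2 hc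
  have hCc : Cf.card = C.ncard := (Set.ncard_eq_toFinset_card C hf).symm
  have hR := pre_R hreg hc hrJ π hπ hker C hC
  have hL := pre_L hreg hc hrJ hcm π hπ hker C hC
  choose X hX1 hX2 hX3 using hR
  choose Y hY1 hY2 hY3 using hL
  let D : Finset T := Cf ∪ Finset.image₂ (fun p c => p * c) V Cf
  let D' : Finset T := Cf ∪ Finset.image₂ (fun p c => c * p) V Cf
  have hD : D.card ≤ (Nat.card J * a + 1) * C.ncard := by
    rw [← hCc]
    exact BrA_card V Cf _ hVc
  have hD' : D'.card ≤ (Nat.card J * a + 1) * C.ncard := by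
    rw [← hCc]
    exact BrA_card V Cf _ hVc
  have hmap : ∀ w ∈ {w : T | π w = z}, (X w, Y w) ∈ ((D ×ˢ D' : Finset (T × T)) : Set (T × T)) := by
    intro w hw
    have hw' : π w = z := hw
    rw [Finset.mem_coe, Finset.mem_product]
    constructor
    · refine BrA_pair {p : T | mu z < mu (π p)} C V Cf (fun p c => p * c) hV hCf ?_
      rcases hX3 w with h1 | ⟨p, c, h1, h2, h3⟩
      · exact Or.inl h1
      · exact Or.inr ⟨p, c, h1, h2, by rw [hw'] at h3; exact h3⟩
    · refine BrA_pair {p : T | mu z < mu (π p)} C V Cf (fun p c => c * p) hV hCf ?_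
      rcases hY3 w with h1 | ⟨p, c, h1, h2, h3⟩
      · exact Or.inl h1
      · exact Or.inr ⟨p, c, h1, h2, by rw [hw'] at h3; exact h3⟩
  have hinj : Set.InjOn (fun w => (X w, Y w)) {w : T | π w = z} := by
    intro w₁ hw₁ w₂ hw₂ he
    have he1 : X w₁ = X w₂ := congrArg Prod.fst he
    have he2 : Y w₁ = Y w₂ := congrArg Prod.snd he
    obtain ⟨x, hx1, hx2⟩ := hker w₁ w₂ (by
      have h1 : π w₁ = z := hw₁
      have h2 : π w₂ = z := hw₂
      rw [h1, h2])
    refine eq_of_H hx1 hx2 ?_ ?_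
    · rcases hY1 w₁ with h1 | ⟨v, h1⟩
      · rcases hY2 w₂ with h2 | ⟨v', h2⟩
        · exact Or.inl (by rw [h1, he2, h2])
        · exact Or.inr ⟨v', by rw [h1, he2, h2]⟩
      · rcases hY2 w₂ with h2 | ⟨v', h2⟩
        · exact Or.inr ⟨v, by rw [he2, h2] at h1; exact h1⟩
        · exact Or.inr ⟨v * v', by rw [he2, h2] at h1; rw [mul_assoc]; exact h1⟩
    · rcases hX1 w₂ with h1 | ⟨v, h1⟩
      · rcases hX2 w₁ with h2 | ⟨v', h2⟩
        · exact Or.inl (by rw [h1, ← he1, h2])
        · exact Or.inr ⟨v', by rw [h1, ← he1, h2]⟩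
      · rcases hX2 w₁ with h2 | ⟨v', h2⟩
        · exact Or.inr ⟨v, by rw [← he1, h2] at h1; exact h1⟩
        · exact Or.inr ⟨v' * v, by rw [← he1, h2] at h1; rw [← mul_assoc]; exact h1⟩
  have hfin : ((D ×ˢ D' : Finset (T × T)) : Set (T × T)).Finite := Finset.finite_toSet _
  refine ⟨Set.Finite.of_injOn hmap hinj hfin, ?_⟩
  calc {w : T | π w = z}.ncard ≤ ((D ×ˢ D' : Finset (T × T)) : Set (T × T)).ncard :=
        Set.ncard_le_ncard_of_injOn _ hmap hinj hfin
    _ = D.card * D'.card := by rw [Set.ncard_coe_finset, Finset.card_product]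
    _ ≤ ((Nat.card J * a + 1) * C.ncard) * ((Nat.card J * a + 1) * C.ncard) :=
        Nat.mul_le_mul hD hD'
    _ = ((Nat.card J * a + 1) * C.ncard) ^ 2 := by ring

end Pool.Agent.H.MP_830e61_lc.CH
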