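import Pool.Agent.H.MP_830e61_lc.CH.BrA

/-!
# The number of elements of a finitely generated orthodox semigroup with finite `T/gamma`

`m = Nat.card J`, `k = C.ncard`, `A 0 = 0`, `A (j + 1) = ((m * A j + 1) * k) ^ 2`.
`brn_step`: `D = C ∪ {p * c | mu z < mu (π p)}`, `D' = C ∪ {c * p | ...}`: finite, at most `(m * a + 1) * k` elements
(the set of the `p` is the union over `y : J` with `mu z < mu y` of fibres of size at most `a`). For `w` with
`π w = z` choose `x ∈ D`, `y ∈ D'` by `pre_R`, `pre_L`; the map `w ↦ (x, y)` is injective on the fibre by `eq_of_H`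
(two elements of the fibre have a common inverse by `hker`; R- and L-relations compose).
`brn`: induction on `j`: the fibres of all `z` with `m + 1 ≤ mu z + j` are finite of size at most `A j`
(`j = 0` is impossible by `mu_le`); `j = m` gives all `z` (`mu_pos`). `m * A j + 1 ≤ (m * k ^ 2 + 1) ^ (2 ^ j - 1)`
(or directly `m * A j + 1 ≤ D ^ (2 ^ j)` with a suitable induction hypothesis), and `T` is the union of `m` fibres.
-/

set_option autoImplicit false

namespace Pool.Agent.H.MP_830e61_lc.CH

open Pool.Agent.H.MP_830e61_lc Pool.Agent.H.MP_830e61_lc.VS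

theorem brn {T J : Type*} [Semigroup T] [Semigroup J] [Finite J] (hreg : Regular T)
    (hc : IdemClosed T) (hrJ : Regular J)
    (hcm : ∀ e f : J, e * e = e → f * f = f → e * f = f * e)
    (π : T →ₙ* J) (hπ : Function.Surjective π)
    (hker : ∀ a b : T, π a = π b → ∃ x, IsInv a x ∧ IsInv b x) (C : Set T) (hf : C.Finite)
    (hC : Subsemigroup.closure C = ⊤) :
    Finite T ∧ Nat.card T ≤ (Nat.card J * C.ncard ^ 2 + 1) ^ (2 ^ Nat.card J) := by
  classical
  have key : ∀ j : ℕ, ∃ a : ℕ,
      (Nat.card J * a + 1) * (Nat.card J * C.ncard ^ 2 + 1) ≤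
        (Nat.card J * C.ncard ^ 2 + 1) ^ (2 ^ j) ∧
      ∀ z : J, Nat.card J + 1 ≤ mu z + j →
        {w : T | π w = z}.Finite ∧ {w : T | π w = z}.ncard ≤ a := by
    intro j
    induction j with
    | zero =>
      refine ⟨0, by simp, fun z hz => ?_⟩
      have := mu_le z
      omega
    | succ j ih =>
      obtain ⟨a, ha, hz⟩ := ih
      refine ⟨((Nat.card J * a + 1) * C.ncard) ^ 2, ?_, fun z hz' => ?_⟩
      · generalize Nat.card J = m at *
        generalize C.ncard = k at *
        have h1 : m * ((m * a + 1) * k) ^ 2 + 1 ≤ (m * k ^ 2 + 1) * (m * a + 1) ^ 2 := by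
          have h2 : 1 ≤ (m * a + 1) ^ 2 := Nat.one_le_pow _ _ (by omega)
          calc m * ((m * a + 1) * k) ^ 2 + 1 ≤ m * ((m * a + 1) * k) ^ 2 + (m * a + 1) ^ 2 := by
                omega
            _ = (m * k ^ 2 + 1) * (m * a + 1) ^ 2 := by ring
        calc (m * ((m * a + 1) * k) ^ 2 + 1) * (m * k ^ 2 + 1)
            ≤ ((m * k ^ 2 + 1) * (m * a + 1) ^ 2) * (m * k ^ 2 + 1) := Nat.mul_le_mul_right _ h1
          _ = ((m * a + 1) * (m * k ^ 2 + 1)) ^ 2 := by ring
          _ ≤ ((m * k ^ 2 + 1) ^ (2 ^ j)) ^ 2 := Nat.pow_le_pow_left ha 2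
          _ = (m * k ^ 2 + 1) ^ (2 ^ (j + 1)) := by rw [← pow_mul, pow_succ 2 j]
      · exact brn_step hreg hc hrJ hcm π hπ hker C hf hC z a fun y hy => hz y (by omega)
  obtain ⟨a, ha, hz⟩ := key (Nat.card J)
  have hall : ∀ z : J, {w : T | π w = z}.Finite ∧ {w : T | π w = z}.ncard ≤ a := fun z =>
    hz z (by have := mu_pos z; omega)
  have hfin : Finite T := by
    have h1 : (⋃ z : J, {w : T | π w = z}).Finite := Set.finite_iUnion fun z => (hall z).1
    have h2 : (⋃ z : J, {w : T | π w = z}) = Set.univ := by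
      ext w
      simp
    rw [h2] at h1
    exact Set.finite_univ_iff.1 h1
  refine ⟨hfin, ?_⟩
  have := Fintype.ofFinite T
  have := Fintype.ofFinite J
  have h3 : (Finset.univ : Finset T).card ≤ a * (Finset.univ : Finset J).card := by
    refine Finset.card_le_mul_card_image_of_maps_to (f := π) (fun _ _ => Finset.mem_univ _) a ?_
    intro z _
    have h4 := (hall z).2
    rw [Set.ncard_eq_toFinset_card'] at h4
    refine le_trans (le_of_eq ?_) h4
    congr 1
    ext w
    simp
  rw [Finset.card_univ, Finset.card_univ, ← Nat.card_eq_fintype_card,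
    ← Nat.card_eq_fintype_card] at h3
  have h5 : Nat.card J * a + 1 ≤ (Nat.card J * a + 1) * (Nat.card J * C.ncard ^ 2 + 1) :=
    Nat.le_mul_of_pos_right _ (by omega)
  calc Nat.card T ≤ a * Nat.card J := h3
    _ ≤ Nat.card J * a + 1 := by rw [mul_comm]; omega
    _ ≤ _ := h5.trans ha

end Pool.Agent.H.MP_830e61_lc.CH
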