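import Pool.Agent.H.MP_830e61_lc.CH.Defs
import Pool.Agent.H.MP_830e61_lc.VS.Ops2

/-!
# The condition is decidable

As `nilF_ev`, `nil_iff`, `rec_nil` in N3/DecA.lean (a landed file of the folder N3): `tame_iff` for any table of `T`.
Write the formula `tameF` (with `.ex .len`, `.eq (.tab ..) ..`, `.or`); `CmpR s t` as a formula in two variables
numbered `a`, `b` (terms): `cmpF a b := .or (.ex .len (.eq (.tab (.tab b' (.var 0)) b') b')) ...`. You are free in the form of
`tameF`; only `tame_iff` and `rec_tame` are used outside.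
-/

set_option autoImplicit false

namespace Pool.Agent.H.MP_830e61_lc.CH

open Pool.Agent.H.MP_830e61_lc Pool.Agent.H.MP_830e61_lc.VS

/-- `CmpR` for the terms `a`, `b`; `a'`, `b'` are the same terms with the variables raised by one -/
private def DecA_cR (a b a' b' : Tm) : Fm :=
  .or (.ex .len (.eq (.tab (.tab b' (.var 0)) b') b'))
    (.or (.eq a b) (.or (.ex .len (.eq b' (.tab a' (.var 0)))) (.ex .len (.eq a' (.tab b' (.var 0))))))

private def DecA_cL (a b a' b' : Tm) : Fm :=
  .or (.ex .len (.eq (.tab (.tab b' (.var 0)) b') b'))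
    (.or (.eq a b) (.or (.ex .len (.eq b' (.tab (.var 0) a'))) (.ex .len (.eq a' (.tab (.var 0) b')))))

private def DecA_R : Fm := .all .len (.all .len (.or
  (.or (DecA_cR (.var 1) (.var 0) (.var 2) (.var 1))
    (.ex .len (.and (.eq (.tab (.var 0) (.var 0)) (.var 0))
      (.and (.eq (.tab (.var 0) (.var 2)) (.var 2))
        (DecA_cR (.var 2) (.tab (.var 0) (.var 1)) (.var 3) (.tab (.var 1) (.var 2)))))))
  (.or (DecA_cR (.var 0) (.var 1) (.var 1) (.var 2))
    (.ex .len (.and (.eq (.tab (.var 0) (.var 0)) (.var 0))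
      (.and (.eq (.tab (.var 0) (.var 1)) (.var 1))
        (DecA_cR (.var 1) (.tab (.var 0) (.var 2)) (.var 2) (.tab (.var 1) (.var 3)))))))))

private def DecA_L : Fm := .all .len (.all .len (.or
  (.or (DecA_cL (.var 1) (.var 0) (.var 2) (.var 1))
    (.ex .len (.and (.eq (.tab (.var 0) (.var 0)) (.var 0))
      (.and (.eq (.tab (.var 2) (.var 0)) (.var 2))
        (DecA_cL (.var 2) (.tab (.var 1) (.var 0)) (.var 3) (.tab (.var 2) (.var 1)))))))
  (.or (DecA_cL (.var 0) (.var 1) (.var 1) (.var 2))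
    (.ex .len (.and (.eq (.tab (.var 0) (.var 0)) (.var 0))
      (.and (.eq (.tab (.var 1) (.var 0)) (.var 1))
        (DecA_cL (.var 1) (.tab (.var 2) (.var 0)) (.var 2) (.tab (.var 3) (.var 1)))))))))

/-- `Tame` as a formula -/
def tameF : Fm := .or DecA_R DecA_L

private theorem DecA_and {p q : List (List ℕ) → Prop} (hp : ComputablePred p)
    (hq : ComputablePred q) : ComputablePred fun L => p L ∧ q L := by
  classical
  obtain ⟨h1, h1'⟩ := hp
  obtain ⟨h2, h2'⟩ := hq
  refine ⟨inferInstance, ?_⟩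
  refine (Primrec.and.to_comp.comp h1' h2').of_eq fun L => ?_
  simp only [Bool.decide_and]

/-- tables of tame semigroups -/
theorem tame_iff {L : List (List ℕ)} {T : Type} [Semigroup T] (h : IsTable L T) :
    tameF.ev L [] ↔ Tame T := by
  obtain ⟨-, e, he'⟩ := h
  have he : ∀ i j : Fin L.length, entry L i.1 j.1 = (e.symm (e i * e j)).val := he'
  obtain ⟨num, hnumd⟩ : ∃ num : T → ℕ, ∀ t, num t = (e.symm t).val := ⟨_, fun _ => rfl⟩
  have hnum : ∀ s t : T, entry L (num s) (num t) = num (s * t) := by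
    intro s t
    rw [hnumd, hnumd, hnumd, he, e.apply_symm_apply, e.apply_symm_apply]
  have hinj : ∀ s t : T, num s = num t ↔ s = t := by
    intro s t
    rw [hnumd, hnumd, ← Fin.ext_iff, e.symm.apply_eq_iff_eq]
  have hlt : ∀ t, num t < L.length := fun t => by
    rw [hnumd]
    exact (e.symm t).2
  have hsur : ∀ x < L.length, ∃ t, num t = x := by
    intro x hx
    refine ⟨e ⟨x, hx⟩, ?_⟩
    rw [hnumd, e.symm_apply_apply]
  have hex : ∀ P : ℕ → Prop, (∃ x < L.length, P x) ↔ ∃ t : T, P (num t) := by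
    intro P
    constructor
    · rintro ⟨x, hx, hP⟩
      obtain ⟨t, rfl⟩ := hsur x hx
      exact ⟨t, hP⟩
    · rintro ⟨t, hP⟩
      exact ⟨num t, hlt t, hP⟩
  have hall : ∀ P : ℕ → Prop, (∀ x < L.length, P x) ↔ ∀ t : T, P (num t) := by
    intro P
    constructor
    · intro h1 t
      exact h1 _ (hlt t)
    · intro h1 x hx
      obtain ⟨t, rfl⟩ := hsur x hx
      exact h1 t
  unfold tameF DecA_R DecA_L DecA_cR DecA_cL
  simp only [Fm.ev, Tm.ev, List.getD_cons_zero, List.getD_cons_succ, hex, hall, hnum, hinj]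
  rfl

theorem rec_tame {Φ : SgClass} (h : Recursive Φ) : Recursive (tame Φ) := by
  refine (DecA_and h tameF.computable).of_eq fun L => ?_
  constructor
  · rintro ⟨⟨T, i, h1, h2⟩, h3⟩
    exact ⟨T, i, ⟨h1, (tame_iff h2).1 h3⟩, h2⟩
  · rintro ⟨T, i, ⟨h1, h3⟩, h2⟩
    exact ⟨⟨T, i, h1, h2⟩, (tame_iff h2).2 h3⟩

end Pool.Agent.H.MP_830e61_lc.CH
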