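import Pool.Agent.H.MP_830e61_lc.VS.Sat

/-!
# Semigroups with comparable non-regular ideals: definitions
-/

set_option autoImplicit false

namespace Pool.Agent.H.MP_830e61_lc.CH

open Pool.Agent.H.MP_830e61_lc

/-- `t` is regular, or the principal right ideals of `s` and `t` are comparable. -/
def CmpR {S : Type*} [Semigroup S] (s t : S) : Prop :=
  (∃ x, t * x * t = t) ∨ s = t ∨ (∃ x, t = s * x) ∨ ∃ x, s = t * x

/-- `t` is regular, or the principal left ideals of `s` and `t` are comparable. -/
def CmpL {S : Type*} [Semigroup S] (s t : S) : Prop :=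
  (∃ x, t * x * t = t) ∨ s = t ∨ (∃ x, t = x * s) ∨ ∃ x, s = x * t

/-- For all `s`, `t` there is an idempotent `e` of `S` with an identity adjoined such that `e s = s` and
`e t` is regular or has a right ideal comparable with that of `s`, or the same with `s` and `t`
exchanged. -/
def ChainR (S : Type*) [Semigroup S] : Prop := ∀ s t : S,
  (CmpR s t ∨ ∃ e, e * e = e ∧ e * s = s ∧ CmpR s (e * t)) ∨
    (CmpR t s ∨ ∃ e, e * e = e ∧ e * t = t ∧ CmpR t (e * s))

/-- The left-right dual condition. -/
def ChainL (S : Type*) [Semigroup S] : Prop := ∀ s t : S,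
  (CmpL s t ∨ ∃ e, e * e = e ∧ s * e = s ∧ CmpL s (t * e)) ∨
    (CmpL t s ∨ ∃ e, e * e = e ∧ t * e = t ∧ CmpL t (s * e))

/-- The class of inputs. -/
def Tame (S : Type*) [Semigroup S] : Prop := ChainR S ∨ ChainL S

/-- The tame members of a class. -/
def tame (Φ : SgClass) : SgClass := fun T i => Φ T i ∧ @Tame T i

/-- The number of elements of the inverse semigroups generated by tame semigroups of size `n`. -/
def mch (n : ℕ) : ℕ := (n + 1) ^ 2 * 2 ^ n

end Pool.Agent.H.MP_830e61_lc.CH
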