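import Pool.Agent.H.MP_830e61_lc.CH.FgL

/-!
# Bounded embeddings

`T'` = the subsemigroup generated by the `φ u` and chosen inverses (`exists_inv`); `sub_reg`, `sat_inj`.
-/

set_option autoImplicit false

namespace Pool.Agent.H.MP_830e61_lc.CH

open Pool.Agent.H.MP_830e61_lc Pool.Agent.H.MP_830e61_lc.VS

private theorem emb_aux (V : List Idty) {S : Type} [Semigroup S] {T : Type} [Semigroup T]
    (hc : IdemClosed T) (hs : Sat V T) (φ : S →ₙ* T) (hφ : Function.Injective φ) (i : S → T)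
    (hi : ∀ u, IsInv (φ u) (i u)) [Finite S] (N : ℕ)
    (h : Finite (Subsemigroup.closure (Set.range φ ∪ Set.range i)) ∧
      Nat.card (Subsemigroup.closure (Set.range φ ∪ Set.range i)) ≤ N) :
    ∃ (T' : Type) (_ : Semigroup T'), Finite T' ∧ Nat.card T' ≤ N ∧
      Regular T' ∧ IdemClosed T' ∧ Sat V T' ∧ ∃ ψ : S →ₙ* T', Function.Injective ψ := by
  obtain ⟨h1, h2⟩ := sub_reg hc φ i hi
  refine ⟨Subsemigroup.closure (Set.range φ ∪ Set.range i), inferInstance, h.1, h.2, h1, h2,
    sat_inj (MulMemClass.subtype (Subsemigroup.closure (Set.range φ ∪ Set.range i)))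
      Subtype.val_injective hs, ?_⟩
  refine ⟨{ toFun := fun u => ⟨φ u, Subsemigroup.subset_closure (Or.inl ⟨u, rfl⟩)⟩
            map_mul' := fun a b => Subtype.ext (map_mul φ a b) }, ?_⟩
  intro a b hab
  exact hφ (congrArg Subtype.val hab)

theorem emb_tame (V : List Idty) (S : Type) [Semigroup S] [Finite S] (hS : Tame S) (T : Type)
    [Semigroup T] (hreg : Regular T) (hc : IdemClosed T) (hs : Sat V T) (φ : S →ₙ* T)
    (hφ : Function.Injective φ) :
    ∃ (T' : Type) (_ : Semigroup T'), Finite T' ∧ Nat.card T' ≤ bnd (Nat.card S) ∧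
      Regular T' ∧ IdemClosed T' ∧ Sat V T' ∧ ∃ ψ : S →ₙ* T', Function.Injective ψ := by
  choose i hi using fun u => exists_inv hreg (φ u)
  refine emb_aux V hc hs φ hφ i hi _ ?_
  rcases hS with h | h
  · exact fg_R hc φ i hi h
  · exact fg_L hc φ i hi h

/-- `T` may be infinite, but `T / γ` has at most `m` elements. -/
theorem emb_gam (V : List Idty) (S : Type) [Semigroup S] [Finite S] (T : Type)
    [Semigroup T] (hreg : Regular T) (hc : IdemClosed T) (hs : Sat V T) (J : Type) [Semigroup J]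
    [Finite J] (π : T →ₙ* J) (hker : ∀ a b : T, π a = π b → ∃ x, IsInv a x ∧ IsInv b x)
    (hcm : ∀ a b : T, a * a = a → b * b = b → π (a * b) = π (b * a)) (φ : S →ₙ* T)
    (hφ : Function.Injective φ) :
    ∃ (T' : Type) (_ : Semigroup T'), Finite T' ∧
      Nat.card T' ≤ (Nat.card J * (2 * Nat.card S) ^ 2 + 1) ^ 2 ^ Nat.card J ∧
      Regular T' ∧ IdemClosed T' ∧ Sat V T' ∧ ∃ ψ : S →ₙ* T', Function.Injective ψ := by
  choose i hi using fun u => exists_inv hreg (φ u)
  exact emb_aux V hc hs φ hφ i hi _ (fg hreg hc π hker hcm φ i hi)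

end Pool.Agent.H.MP_830e61_lc.CH
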