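import Pool.Agent.H.MP_830e61_lc.CH.Brn

/-!
# The generated subsemigroup is finite

`sub_reg`: the subsemigroup `M` generated by the `φ u` and their inverses `i u` is regular (`inv_mul`) with closed
idempotents. `fg`: `gam_quot` for `M` and `brn` (`Nat.card J ≤ m`; the bound is monotone in `m` and `k ≤ 2 n`): if
`T / γ` has at most `m` elements. Here `γ` for `M` is the restriction (an inverse in `T` of an element of `M` which is in `M`; use
`gam_quot` for `M` itself and the hypothesis `hJ` for `M`).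
`fg_R`: `J = M / γ` for `M`, `π ∘ φ`, `π ∘ i`, `redu`, `nf`, then `brn`, `bd_ar`. `fg_L`: dual (`MulOpposite`, `op_regular`, `op_closed`,
the closure in `Tᵐᵒᵖ`, `ChainL S → ChainR Sᵐᵒᵖ`).
-/

set_option autoImplicit false

namespace Pool.Agent.H.MP_830e61_lc.CH

open Pool.Agent.H.MP_830e61_lc Pool.Agent.H.MP_830e61_lc.VS

open MulOpposite

variable {S T : Type*} [Semigroup S] [Finite S] [Semigroup T]

private theorem fgA_inv (hc : IdemClosed T) (φ : S →ₙ* T) (i : S → T)
    (hi : ∀ u, IsInv (φ u) (i u)) (a : T)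
    (ha : a ∈ Subsemigroup.closure (Set.range φ ∪ Set.range i)) :
    ∃ x ∈ Subsemigroup.closure (Set.range φ ∪ Set.range i), IsInv a x := by
  induction ha using Subsemigroup.closure_induction with
  | mem a ha =>
    rcases ha with ⟨u, rfl⟩ | ⟨u, rfl⟩
    · exact ⟨i u, Subsemigroup.subset_closure (Or.inr ⟨u, rfl⟩), hi u⟩
    · exact ⟨φ u, Subsemigroup.subset_closure (Or.inl ⟨u, rfl⟩), (hi u).symm⟩
  | mul a b _ _ iha ihb =>
    obtain ⟨x, hx, hax⟩ := iha
    obtain ⟨y, hy, hby⟩ := ihb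
    exact ⟨y * x, mul_mem hy hx, inv_mul hc hax hby⟩

theorem sub_reg (hc : IdemClosed T) (φ : S →ₙ* T) (i : S → T)
    (hi : ∀ u, IsInv (φ u) (i u)) :
    Regular (Subsemigroup.closure (Set.range φ ∪ Set.range i)) ∧
      IdemClosed (Subsemigroup.closure (Set.range φ ∪ Set.range i)) := by
  constructor
  · rintro ⟨a, ha⟩
    obtain ⟨x, hx, hax⟩ := fgA_inv hc φ i hi a ha
    exact ⟨⟨x, hx⟩, Subtype.ext hax.1⟩
  · rintro ⟨e, he⟩ ⟨f, hf⟩ h1 h2
    exact Subtype.ext (hc e f (congrArg Subtype.val h1) (congrArg Subtype.val h2))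

private theorem fgA_ncard (φ : S →ₙ* T) (i : S → T) :
    ((fun m : Subsemigroup.closure (Set.range φ ∪ Set.range i) => (m : T)) ⁻¹'
      (Set.range φ ∪ Set.range i)).Finite ∧
    ((fun m : Subsemigroup.closure (Set.range φ ∪ Set.range i) => (m : T)) ⁻¹'
      (Set.range φ ∪ Set.range i)).ncard ≤ 2 * Nat.card S := by
  have hf : (Set.range φ ∪ Set.range i).Finite := (Set.finite_range φ).union (Set.finite_range i)
  have h1 : ∀ f : S → T, (Set.range f).ncard ≤ Nat.card S := by
    intro f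
    rw [← Set.image_univ, ← Set.ncard_univ]
    exact Set.ncard_image_le Set.finite_univ
  refine ⟨hf.preimage (Subtype.coe_injective.injOn), ?_⟩
  have h2 := Set.ncard_le_ncard_of_injOn
    (s := (fun m : Subsemigroup.closure (Set.range φ ∪ Set.range i) => (m : T)) ⁻¹'
      (Set.range φ ∪ Set.range i)) (t := Set.range φ ∪ Set.range i)
    (fun m : Subsemigroup.closure (Set.range φ ∪ Set.range i) => (m : T))
    (fun a ha => ha) (Subtype.coe_injective.injOn) hf
  have h3 := Set.ncard_union_le (Set.range φ) (Set.range i)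
  have h4 := h1 φ
  have h5 := h1 i
  omega

/-- the general bound: `π` any homomorphism onto a semigroup with at most `m` elements whose kernel is in `γ`
and whose image has commuting idempotents -/
theorem fg (hreg : Regular T) (hc : IdemClosed T) {J : Type*} [Semigroup J] [Finite J]
    (π : T →ₙ* J) (hker : ∀ a b : T, π a = π b → ∃ x, IsInv a x ∧ IsInv b x)
    (hcm : ∀ a b : T, a * a = a → b * b = b → π (a * b) = π (b * a))
    (φ : S →ₙ* T) (i : S → T) (hi : ∀ u, IsInv (φ u) (i u)) :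
    Finite (Subsemigroup.closure (Set.range φ ∪ Set.range i)) ∧
      Nat.card (Subsemigroup.closure (Set.range φ ∪ Set.range i)) ≤
        (Nat.card J * (2 * Nat.card S) ^ 2 + 1) ^ 2 ^ Nat.card J := by
  obtain ⟨hr, hcl⟩ := sub_reg hc φ i hi
  obtain ⟨J', _, ρ, hρ, hrJ, hcmJ, hkJ, -⟩ := gam_quot hr hcl
  obtain ⟨hCf, hCn⟩ := fgA_ncard φ i
  have hinj : Function.Injective (fun q : J' => π ((Function.surjInv hρ q : _) : T)) := by
    intro q q' h
    obtain ⟨x, h1, h2⟩ := hker _ _ h
    obtain ⟨y, hy, h3⟩ := fgA_inv hc φ i hi _ (Function.surjInv hρ q).2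
    have h4 := inv_of_common hc h1 h2 h3
    have h5 : ρ (Function.surjInv hρ q) = ρ (Function.surjInv hρ q') := by
      rw [hkJ]
      exact ⟨⟨y, hy⟩, ⟨Subtype.ext h3.1, Subtype.ext h3.2⟩, ⟨Subtype.ext h4.1, Subtype.ext h4.2⟩⟩
    rw [Function.surjInv_eq hρ, Function.surjInv_eq hρ] at h5
    exact h5
  have hfin : Finite J' := Finite.of_injective _ hinj
  have hcard : Nat.card J' ≤ Nat.card J := Nat.card_le_card_of_injective _ hinj
  have hb := brn hr hcl hrJ hcmJ ρ hρ (fun a b h => (hkJ a b).1 h) _ hCf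
    (Subsemigroup.closure_closure_coe_preimage)
  refine ⟨hb.1, hb.2.trans ?_⟩
  refine (Nat.pow_le_pow_left (m := Nat.card J * (2 * Nat.card S) ^ 2 + 1) ?_ _).trans ?_
  · exact Nat.add_le_add_right (Nat.mul_le_mul hcard (Nat.pow_le_pow_left hCn 2)) 1
  · exact Nat.pow_le_pow_right (Nat.succ_pos _) (Nat.pow_le_pow_right (by norm_num) hcard)

end Pool.Agent.H.MP_830e61_lc.CH
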