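import Pool.Agent.H.MP_830e61_lc.CH.FgR
import Pool.Agent.H.MP_830e61_lc.Reg

/-!
# The generated subsemigroup is finite

`sub_reg`: the subsemigroup `M` generated by the `φ u` and their inverses `i u` is regular (`inv_mul`) with closed
idempotents. `fg`: `gam_quot` for `M` and `brn` (`Nat.card J ≤ m`; the bound is monotone in `m` and `k ≤ 2 n`): if
`T / γ` has at most `m` elements. Here `γ` for `M` is the restriction (an inverse in `T` of an element of `M` which is in `M`; use
`gam_quot` for `M` itself and the hypothesis `hJ` for `M`).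
`fg_R`: `J = M / γ` for `M`, `π ∘ φ`, `π ∘ i`, `redu`, `nf`, then `brn`, `bd_ar`. `fg_L`: dual (`MulOpposite`, `op_regular`, `op_closed`,
the closure in `Tᵐᵒᵖ`, `ChainL S → ChainR Sᵐᵒᵖ`).
-/

set_option autoImplicit false

namespace Pool.Agent.H.MP_830e61_lc.CH

open Pool.Agent.H.MP_830e61_lc Pool.Agent.H.MP_830e61_lc.VS

open MulOpposite

variable {S T : Type*} [Semigroup S] [Finite S] [Semigroup T]

private theorem FgL_cmp {S : Type*} [Semigroup S] {s t : Sᵐᵒᵖ} (h : CmpL (unop s) (unop t)) :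
    CmpR s t := by
  rcases h with ⟨x, hx⟩ | h | ⟨x, hx⟩ | ⟨x, hx⟩
  · refine Or.inl ⟨op x, ?_⟩
    apply unop_injective
    simpa [mul_assoc] using hx
  · exact Or.inr (Or.inl (unop_injective h))
  · refine Or.inr (Or.inr (Or.inl ⟨op x, ?_⟩))
    apply unop_injective
    simpa using hx
  · refine Or.inr (Or.inr (Or.inr ⟨op x, ?_⟩))
    apply unop_injective
    simpa using hx

private theorem FgL_one {S : Type*} [Semigroup S] {s t : Sᵐᵒᵖ}
    (h : CmpL (unop s) (unop t) ∨ ∃ e, e * e = e ∧ unop s * e = unop s ∧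
      CmpL (unop s) (unop t * e)) :
    CmpR s t ∨ ∃ e, e * e = e ∧ e * s = s ∧ CmpR s (e * t) := by
  rcases h with h | ⟨e, h1, h2, h3⟩
  · exact Or.inl (FgL_cmp h)
  · refine Or.inr ⟨op e, ?_, ?_, FgL_cmp ?_⟩
    · rw [← op_mul, h1]
    · apply unop_injective
      simpa using h2
    · simpa using h3

private theorem FgL_chain {S : Type*} [Semigroup S] (h : ChainL S) : ChainR Sᵐᵒᵖ := by
  intro s t
  rcases h (unop s) (unop t) with h1 | h1
  · exact Or.inl (FgL_one h1)
  · exact Or.inr (FgL_one h1)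

theorem fg_L (hc : IdemClosed T) (φ : S →ₙ* T) (i : S → T) (hi : ∀ u, IsInv (φ u) (i u))
    (hS : ChainL S) :
    Finite (Subsemigroup.closure (Set.range φ ∪ Set.range i)) ∧
      Nat.card (Subsemigroup.closure (Set.range φ ∪ Set.range i)) ≤ bnd (Nat.card S) := by
  have hfin : Finite Sᵐᵒᵖ := Finite.of_equiv S opEquiv
  have hi' : ∀ u : Sᵐᵒᵖ, IsInv (MulHom.op φ u) (op (i (unop u))) := by
    intro u
    obtain ⟨h1, h2⟩ := hi (unop u)
    constructor
    · apply unop_injective
      simpa [mul_assoc] using h1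
    · apply unop_injective
      simpa [mul_assoc] using h2
  obtain ⟨h1, h2⟩ := fg_R (op_closed hc) (MulHom.op φ) (fun u : Sᵐᵒᵖ => op (i (unop u))) hi'
    (FgL_chain hS)
  have hset : Set.range (MulHom.op φ) ∪ Set.range (fun u : Sᵐᵒᵖ => op (i (unop u))) =
      unop ⁻¹' (Set.range φ ∪ Set.range i) := by
    ext x
    simp only [Set.mem_union, Set.mem_range, Set.mem_preimage]
    constructor
    · rintro (⟨u, rfl⟩ | ⟨u, rfl⟩)
      · exact Or.inl ⟨unop u, rfl⟩
      · exact Or.inr ⟨unop u, rfl⟩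
    · rintro (⟨u, hu⟩ | ⟨u, hu⟩)
      · exact Or.inl ⟨op u, unop_injective hu⟩
      · exact Or.inr ⟨op u, unop_injective hu⟩
  rw [hset, ← Subsemigroup.op_closure] at h1 h2
  have e : Subsemigroup.closure (Set.range φ ∪ Set.range i) ≃
      (Subsemigroup.closure (Set.range φ ∪ Set.range i)).op :=
    Subsemigroup.equivOp _
  have e2 : Nat.card Sᵐᵒᵖ = Nat.card S := Nat.card_congr opEquiv.symm
  rw [e2] at h2
  exact ⟨Finite.of_equiv _ e.symm, by rw [Nat.card_congr e]; exact h2⟩

end Pool.Agent.H.MP_830e61_lc.CH
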