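import Pool.Agent.H.MP_830e61_lc.CH.NfD

/-!
# The normal form

`J` regular with commuting idempotents, `ψ : S → J`, `i u` the inverse of `ψ u`. For `s`, `t : S` the element
`i s * ψ t` is `ψ d`, or `i d`, or `(i m * ψ m) * ψ x`, or `i y * (i m * ψ m)`, or `i m * ψ m`. (`i` is antimultiplicative by
`inv_mul`, `inv_unique`; `i s = i s * ψ e` if `e * s = s`, `e` idempotent, because `i e = ψ e`; if `t` is regular in `S`
take an inverse `v` of `t` in `S`: `ψ v = i t`, so `i s * ψ t = i (v * s)`, as `i t * ψ s = ψ (v * s)`; if `t = s * x`: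
`i s * ψ s * ψ x`; if `s = t * y`: `i y * (i t * ψ t)`.) In `WithOne J` let `E F` be the product over `F : Finset S` of
the commuting idempotents `i m * ψ m` (product in the commutative monoid of the idempotents of `WithOne J`, or over a
fixed list). The set of all `a * E F * b'`, `a ∈ {1} ∪ ψ S`, `b' ∈ {1} ∪ i S`, is closed under right multiplication by
`ψ u` and `i u`: `(i m * ψ m) * ψ c = ψ c * (i (m * c) * ψ (m * c))` and `i y * (i m * ψ m) = (i (m * y) * ψ (m * y)) * i y`.
It contains the generators, so it contains the closure.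
-/

set_option autoImplicit false

namespace Pool.Agent.H.MP_830e61_lc.CH

open Pool.Agent.H.MP_830e61_lc Pool.Agent.H.MP_830e61_lc.VS

private theorem NfA_unique {J : Type*} [Semigroup J]
    (hcm : ∀ e f : J, e * e = e → f * f = f → e * f = f * e) {a x y : J} (hx : IsInv a x)
    (hy : IsInv a y) : x = y := by
  have h1 : (a * y) * (a * x) = (a * x) * (a * y) := hcm _ _ hy.left hx.left
  have h2 : (x * a) * (y * a) = (y * a) * (x * a) := hcm _ _ hx.right hy.right
  calc x = x * a * x := hx.2.symm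
    _ = x * (a * y * a) * x := by rw [hy.1]
    _ = x * ((a * y) * (a * x)) := by simp only [mul_assoc]
    _ = x * ((a * x) * (a * y)) := by rw [h1]
    _ = (x * a * x) * (a * y) := by simp only [mul_assoc]
    _ = x * (a * y) := by rw [hx.2]
    _ = x * (a * (y * a * y)) := by rw [hy.2]
    _ = ((x * a) * (y * a)) * y := by simp only [mul_assoc]
    _ = ((y * a) * (x * a)) * y := by rw [h2]
    _ = y * (a * x * a) * y := by simp only [mul_assoc]
    _ = y * a * y := by rw [hx.1]
    _ = y := hy.2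

private theorem NfA_closed {J : Type*} [Semigroup J]
    (hcm : ∀ e f : J, e * e = e → f * f = f → e * f = f * e) : IdemClosed J := by
  intro e f he hf
  calc e * f * (e * f) = e * (f * e) * f := by simp only [mul_assoc]
    _ = e * (e * f) * f := by rw [hcm f e hf he]
    _ = (e * e) * (f * f) := by simp only [mul_assoc]
    _ = e * f := by rw [he, hf]

private theorem NfA_map {S J : Type*} [Semigroup S] [Semigroup J] (ψ : S →ₙ* J) {a x : S}
    (h : IsInv a x) : IsInv (ψ a) (ψ x) :=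
  ⟨by rw [← map_mul, ← map_mul, h.1], by rw [← map_mul, ← map_mul, h.2]⟩

private theorem NfA_mul {S J : Type*} [Semigroup S] [Semigroup J]
    (hcm : ∀ e f : J, e * e = e → f * f = f → e * f = f * e) (ψ : S →ₙ* J) (i : S → J)
    (hi : ∀ u, IsInv (ψ u) (i u)) (s t : S) : i (s * t) = i t * i s := by
  refine NfA_unique hcm (hi (s * t)) ?_
  rw [map_mul]
  exact inv_mul (NfA_closed hcm) (hi s) (hi t)

private theorem NfA_reg {S J : Type*} [Semigroup S] [Semigroup J]
    (hcm : ∀ e f : J, e * e = e → f * f = f → e * f = f * e) (ψ : S →ₙ* J) (i : S → J)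
    (hi : ∀ u, IsInv (ψ u) (i u)) {t : S} (h : ∃ x, t * x * t = t) :
    ∃ v, ψ v = i t ∧ i v = ψ t := by
  obtain ⟨x, hx⟩ := h
  have hv : IsInv t (x * t * x) := by
    refine ⟨?_, ?_⟩
    · calc t * (x * t * x) * t = (t * x * t) * x * t := by simp only [mul_assoc]
        _ = t := by rw [hx, hx]
    · calc (x * t * x) * t * (x * t * x) = x * ((t * x * t) * x * t) * x := by
            simp only [mul_assoc]
        _ = x * t * x := by rw [hx, hx]
  exact ⟨x * t * x, NfA_unique hcm (NfA_map ψ hv) (hi t),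
    NfA_unique hcm (hi _) (NfA_map ψ hv).symm⟩

private theorem NfA_idem {S J : Type*} [Semigroup S] [Semigroup J]
    (hcm : ∀ e f : J, e * e = e → f * f = f → e * f = f * e) (ψ : S →ₙ* J) (i : S → J)
    (hi : ∀ u, IsInv (ψ u) (i u)) {e : S} (h : e * e = e) : i e = ψ e :=
  NfA_unique hcm (hi e) (isInv_idem (by rw [← map_mul, h]))

private theorem NfA_A {S J : Type*} [Semigroup S] [Semigroup J]
    (hcm : ∀ e f : J, e * e = e → f * f = f → e * f = f * e) (ψ : S →ₙ* J) (i : S → J)
    (hi : ∀ u, IsInv (ψ u) (i u)) (s t : S) (h : CmpR s t) : Redu ψ i (i s * ψ t) := by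
  rcases h with h | h | ⟨x, h⟩ | ⟨x, h⟩
  · obtain ⟨v, -, hv⟩ := NfA_reg hcm ψ i hi h
    exact Or.inr (Or.inl ⟨v * s, by rw [NfA_mul hcm ψ i hi, hv]⟩)
  · rw [h]
    exact Or.inr (Or.inr (Or.inl ⟨t, rfl⟩))
  · rw [h]
    exact Or.inr (Or.inr (Or.inr (Or.inl ⟨s, x, by rw [map_mul, mul_assoc]⟩)))
  · rw [h]
    exact Or.inr (Or.inr (Or.inr (Or.inr ⟨x, t, by
      rw [NfA_mul hcm ψ i hi, mul_assoc]⟩)))

private theorem NfA_B {S J : Type*} [Semigroup S] [Semigroup J]
    (hcm : ∀ e f : J, e * e = e → f * f = f → e * f = f * e) (ψ : S →ₙ* J) (i : S → J)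
    (hi : ∀ u, IsInv (ψ u) (i u)) (s t : S) (h : CmpR t s) : Redu ψ i (i s * ψ t) := by
  rcases h with h | h | h | h
  · obtain ⟨v, hv, -⟩ := NfA_reg hcm ψ i hi h
    exact Or.inl ⟨v * t, by rw [map_mul, hv]⟩
  · exact NfA_A hcm ψ i hi s t (Or.inr (Or.inl h.symm))
  · exact NfA_A hcm ψ i hi s t (Or.inr (Or.inr (Or.inr h)))
  · exact NfA_A hcm ψ i hi s t (Or.inr (Or.inr (Or.inl h)))

theorem redu {S J : Type*} [Semigroup S] [Semigroup J]
    (hcm : ∀ e f : J, e * e = e → f * f = f → e * f = f * e) (ψ : S →ₙ* J) (i : S → J)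
    (hi : ∀ u, IsInv (ψ u) (i u)) (hS : ChainR S) (s t : S) : Redu ψ i (i s * ψ t) := by
  rcases hS s t with (h | ⟨e, he, h1, h⟩) | (h | ⟨e, he, h1, h⟩)
  · exact NfA_A hcm ψ i hi s t h
  · have h2 : i s * ψ t = i s * ψ (e * t) := by
      have h3 : i s = i s * ψ e := by
        rw [← NfA_idem hcm ψ i hi he, ← NfA_mul hcm ψ i hi, h1]
      rw [map_mul, ← mul_assoc, ← h3]
    rw [h2]
    exact NfA_A hcm ψ i hi s (e * t) h
  · exact NfA_B hcm ψ i hi s t h
  · have h2 : i s * ψ t = i (e * s) * ψ t := by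
      rw [NfA_mul hcm ψ i hi, NfA_idem hcm ψ i hi he, mul_assoc, ← map_mul, h1]
    rw [h2]
    exact NfA_B hcm ψ i hi (e * s) t h

end Pool.Agent.H.MP_830e61_lc.CH
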