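import Pool.Agent.H.MP_830e61_lc.CH.NfD

/-!
# The normal form

`J` regular with commuting idempotents, `ψ : S → J`, `i u` the inverse of `ψ u`. For `s`, `t : S` the element
`i s * ψ t` is `ψ d`, or `i d`, or `(i m * ψ m) * ψ x`, or `i y * (i m * ψ m)`, or `i m * ψ m`. (`i` is antimultiplicative by
`inv_mul`, `inv_unique`; `i s = i s * ψ e` if `e * s = s`, `e` idempotent, because `i e = ψ e`; if `t` is regular in `S`
take an inverse `v` of `t` in `S`: `ψ v = i t`, so `i s * ψ t = i (v * s)`, as `i t * ψ s = ψ (v * s)`; if `t = s * x`: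
`i s * ψ s * ψ x`; if `s = t * y`: `i y * (i t * ψ t)`.) In `WithOne J` let `E F` be the product over `F : Finset S` of
the commuting idempotents `i m * ψ m` (product in the commutative monoid of the idempotents of `WithOne J`, or over a
fixed list). The set of all `a * E F * b'`, `a ∈ {1} ∪ ψ S`, `b' ∈ {1} ∪ i S`, is closed under right multiplication by
`ψ u` and `i u`: `(i m * ψ m) * ψ c = ψ c * (i (m * c) * ψ (m * c))` and `i y * (i m * ψ m) = (i (m * y) * ψ (m * y)) * i y`.
It contains the generators, so it contains the closure.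
-/

set_option autoImplicit false

namespace Pool.Agent.H.MP_830e61_lc.CH

open Pool.Agent.H.MP_830e61_lc Pool.Agent.H.MP_830e61_lc.VS

private theorem anti {S J : Type*} [Semigroup S] [Semigroup J]
    (hcm : ∀ e f : J, e * e = e → f * f = f → e * f = f * e) (ψ : S →ₙ* J) (i : S → J)
    (hi : ∀ u, IsInv (ψ u) (i u)) (u v : S) : i v * i u = i (u * v) := by
  have hc : IdemClosed J := fun e f he hf => by
    calc e * f * (e * f) = e * (f * e) * f := by simp only [mul_assoc]
      _ = e * (e * f) * f := by rw [hcm f e hf he]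
      _ = (e * e) * (f * f) := by simp only [mul_assoc]
      _ = e * f := by rw [he, hf]
  have h1 := inv_mul hc (hi u) (hi v)
  have h2 := hi (u * v)
  rw [map_mul] at h2
  exact inv_unique hcm h1 h2

private theorem move_psi {S J : Type*} [Semigroup S] [Semigroup J]
    (hcm : ∀ e f : J, e * e = e → f * f = f → e * f = f * e) (ψ : S →ₙ* J) (i : S → J)
    (hi : ∀ u, IsInv (ψ u) (i u)) (m c : S) :
    i m * ψ m * ψ c = ψ c * (i (m * c) * ψ (m * c)) := by
  rw [← anti hcm ψ i hi m c, map_mul]
  have h := hcm _ _ (hi m).right (hi c).left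
  calc i m * ψ m * ψ c = i m * ψ m * (ψ c * i c * ψ c) := by rw [(hi c).1]
    _ = (i m * ψ m) * (ψ c * i c) * ψ c := by simp only [mul_assoc]
    _ = (ψ c * i c) * (i m * ψ m) * ψ c := by rw [h]
    _ = ψ c * (i c * i m * (ψ m * ψ c)) := by simp only [mul_assoc]

private theorem move_i {S J : Type*} [Semigroup S] [Semigroup J]
    (hcm : ∀ e f : J, e * e = e → f * f = f → e * f = f * e) (ψ : S →ₙ* J) (i : S → J)
    (hi : ∀ u, IsInv (ψ u) (i u)) (y m : S) :
    i y * (i m * ψ m) = i (m * y) * ψ (m * y) * i y := by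
  rw [← anti hcm ψ i hi m y, map_mul]
  have h := hcm _ _ (hi m).right (hi y).left
  calc i y * (i m * ψ m) = (i y * ψ y * i y) * (i m * ψ m) := by rw [(hi y).2]
    _ = i y * ((ψ y * i y) * (i m * ψ m)) := by simp only [mul_assoc]
    _ = i y * ((i m * ψ m) * (ψ y * i y)) := by rw [h]
    _ = i y * i m * (ψ m * ψ y) * i y := by simp only [mul_assoc]

private theorem exists_E {S J : Type*} [DecidableEq S] [Semigroup J] (e : S → J)
    (he : ∀ m, e m * e m = e m) (hcm : ∀ m n, e m * e n = e n * e m) :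
    ∃ E : Finset S → WithOne J, E ∅ = 1 ∧
      ∀ F m, E F * (e m : WithOne J) = E (insert m F) := by
  have comm : ∀ F : Finset S, (F : Set S).Pairwise
      (Function.onFun Commute fun m => (e m : WithOne J)) := by
    intro F m _ n _ _
    show (e m : WithOne J) * e n = e n * e m
    rw [← WithOne.coe_mul, ← WithOne.coe_mul, hcm]
  obtain ⟨E, hE⟩ : ∃ E : Finset S → WithOne J,
      ∀ F, E F = F.noncommProd (fun m => (e m : WithOne J)) (comm F) := ⟨_, fun _ => rfl⟩
  refine ⟨E, by rw [hE]; simp, fun F m => ?_⟩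
  have hins : ∀ G : Finset S, m ∉ G → E (insert m G) = E G * e m := by
    intro G hG
    rw [hE, hE]
    exact Finset.noncommProd_insert_of_notMem' _ _ _ _ hG
  by_cases hm : m ∈ F
  · obtain ⟨G, hG, rfl⟩ : ∃ G : Finset S, m ∉ G ∧ F = insert m G :=
      ⟨F.erase m, Finset.notMem_erase m F, (Finset.insert_erase hm).symm⟩
    rw [Finset.insert_eq_of_mem hm, hins G hG, mul_assoc, ← WithOne.coe_mul, he]
  · exact (hins F hm).symm

theorem nf {S J : Type*} [Semigroup S] [Finite S] [Semigroup J]
    (hcm : ∀ e f : J, e * e = e → f * f = f → e * f = f * e) (ψ : S →ₙ* J) (i : S → J)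
    (hi : ∀ u, IsInv (ψ u) (i u)) (hR : ∀ s t : S, Redu ψ i (i s * ψ t))
    (hC : Subsemigroup.closure (Set.range ψ ∪ Set.range i) = ⊤) :
    Finite J ∧ Nat.card J ≤ mch (Nat.card S) := by
  classical
  obtain ⟨E, hE0, hE⟩ := exists_E (fun m => i m * ψ m) (fun m => (hi m).right)
    (fun m n => hcm _ _ (hi m).right (hi n).right)
  have hEψ : ∀ (F : Finset S) (c : S), ∃ F', E F * (ψ c : WithOne J) = ψ c * E F' := by
    intro F c
    induction F using Finset.induction_on with
    | empty => exact ⟨∅, by rw [hE0, one_mul, mul_one]⟩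
    | insert m F _ ih =>
      obtain ⟨F', hF'⟩ := ih
      refine ⟨insert (m * c) F', ?_⟩
      rw [← hE F m, ← hE F' (m * c), mul_assoc, ← WithOne.coe_mul,
        move_psi hcm ψ i hi m c, WithOne.coe_mul, ← mul_assoc, hF', mul_assoc]
  -- the left and the right factors
  obtain ⟨A, hA0, hA⟩ : ∃ A : Option S → WithOne J, A none = 1 ∧ ∀ s, A (some s) = ψ s :=
    ⟨fun o => o.elim 1 fun s => (ψ s : WithOne J), rfl, fun _ => rfl⟩
  obtain ⟨B, hB0, hB⟩ : ∃ B : Option S → WithOne J, B none = 1 ∧ ∀ s, B (some s) = i s :=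
    ⟨fun o => o.elim 1 fun s => (i s : WithOne J), rfl, fun _ => rfl⟩
  obtain ⟨N, hN⟩ : ∃ N : Set (WithOne J), ∀ w, w ∈ N ↔
      ∃ p : Option S × Finset S × Option S, w = A p.1 * E p.2.1 * B p.2.2 :=
    ⟨{w | ∃ p : Option S × Finset S × Option S, w = A p.1 * E p.2.1 * B p.2.2}, fun _ => Iff.rfl⟩
  have hAψ : ∀ (a : Option S) (F : Finset S) (c : S),
      ∃ a' F', A a * E F * (ψ c : WithOne J) = A a' * E F' := by
    intro a F c
    obtain ⟨F', hF'⟩ := hEψ F c
    cases a with
    | none =>
      refine ⟨some c, F', ?_⟩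
      rw [hA0, one_mul, hF', hA]
    | some s =>
      refine ⟨some (s * c), F', ?_⟩
      rw [hA, hA, mul_assoc, hF', ← mul_assoc, ← WithOne.coe_mul, ← map_mul]
  have h1 : (1 : WithOne J) ∈ N := (hN _).2 ⟨(none, ∅, none), by
    show (1 : WithOne J) = A none * E ∅ * B none
    rw [hA0, hB0, hE0, one_mul, one_mul]⟩
  have hNi : ∀ w ∈ N, ∀ u, w * (i u : WithOne J) ∈ N := by
    intro w hw u
    obtain ⟨⟨a, F, b⟩, rfl⟩ := (hN w).1 hw
    refine (hN _).2 ?_
    cases b with
    | none => exact ⟨(a, F, some u), by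
        show A a * E F * B none * (i u : WithOne J) = A a * E F * B (some u)
        rw [hB0, hB, mul_one]⟩
    | some v => exact ⟨(a, F, some (u * v)), by
        show A a * E F * B (some v) * (i u : WithOne J) = A a * E F * B (some (u * v))
        rw [hB, hB, mul_assoc, ← WithOne.coe_mul, anti hcm ψ i hi u v]⟩
  have hNψ : ∀ w ∈ N, ∀ u, w * (ψ u : WithOne J) ∈ N := by
    intro w hw u
    obtain ⟨⟨a, F, b⟩, rfl⟩ := (hN w).1 hw
    refine (hN _).2 ?_
    cases b with
    | none =>
      obtain ⟨a', F', h⟩ := hAψ a F u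
      exact ⟨(a', F', none), by
        show A a * E F * B none * (ψ u : WithOne J) = A a' * E F' * B none
        rw [hB0, mul_one, mul_one, h]⟩
    | some v =>
      show ∃ p : Option S × Finset S × Option S,
        A a * E F * B (some v) * (ψ u : WithOne J) = A p.1 * E p.2.1 * B p.2.2
      rw [hB, mul_assoc, ← WithOne.coe_mul]
      rcases hR v u with ⟨d, h⟩ | ⟨d, h⟩ | ⟨m, h⟩ | ⟨m, x, h⟩ | ⟨y, m, h⟩
      · obtain ⟨a', F', h'⟩ := hAψ a F d
        exact ⟨(a', F', none), by rw [h, h', hB0, mul_one]⟩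
      · exact ⟨(a, F, some d), by rw [h, hB]⟩
      · exact ⟨(a, insert m F, none), by rw [h, hB0, mul_one, mul_assoc, hE]⟩
      · obtain ⟨a', F', h'⟩ := hAψ a (insert m F) x
        exact ⟨(a', F', none), by
          rw [h, WithOne.coe_mul, ← mul_assoc, mul_assoc (A a), hE, h', hB0, mul_one]⟩
      · exact ⟨(a, insert (m * y) F, some y), by
          rw [h, move_i hcm ψ i hi y m, WithOne.coe_mul, ← mul_assoc, mul_assoc (A a), hE, hB]⟩
  have hcl : ∀ x ∈ Subsemigroup.closure (Set.range ψ ∪ Set.range i),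
      ∀ w ∈ N, w * (x : WithOne J) ∈ N := by
    intro x hx
    induction hx using Subsemigroup.closure_induction with
    | mem x hx =>
      rcases hx with ⟨u, rfl⟩ | ⟨u, rfl⟩
      · exact fun w hw => hNψ w hw u
      · exact fun w hw => hNi w hw u
    | mul x y _ _ hx hy =>
      intro w hw
      rw [WithOne.coe_mul, ← mul_assoc]
      exact hy _ (hx w hw)
  have hall : ∀ x : J, ∃ p : Option S × Finset S × Option S,
      (x : WithOne J) = A p.1 * E p.2.1 * B p.2.2 := by
    intro x
    have h := hcl x (by rw [hC]; exact Subsemigroup.mem_top x) 1 h1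
    rw [one_mul] at h
    exact (hN _).1 h
  choose g hg using hall
  have hinj : Function.Injective g := by
    intro x y hxy
    have h : (x : WithOne J) = (y : WithOne J) := by rw [hg x, hg y, hxy]
    exact WithOne.coe_inj.1 h
  have : Finite J := Finite.of_injective g hinj
  refine ⟨this, ?_⟩
  have h2 := Nat.card_le_card_of_injective g hinj
  have : Fintype S := Fintype.ofFinite S
  rw [Nat.card_prod, Nat.card_prod, Finite.card_option] at h2
  have h3 : Nat.card (Finset S) = 2 ^ Nat.card S := by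
    rw [Nat.card_eq_fintype_card, Nat.card_eq_fintype_card, Fintype.card_finset]
  rw [h3] at h2
  unfold mch
  calc Nat.card J ≤ _ := h2
    _ = _ := by ring

end Pool.Agent.H.MP_830e61_lc.CH
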