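import Pool.Agent.H.MP_830e61_lc.CH.FgA
import Pool.Agent.H.MP_830e61_lc.CH.NfA
import Pool.Agent.H.MP_830e61_lc.CH.NfB
import Pool.Agent.H.MP_830e61_lc.CH.Ar

/-!
# The generated subsemigroup is finite

`sub_reg`: the subsemigroup `M` generated by the `φ u` and their inverses `i u` is regular (`inv_mul`) with closed
idempotents. `fg`: `gam_quot` for `M` and `brn` (`Nat.card J ≤ m`; the bound is monotone in `m` and `k ≤ 2 n`): if
`T / γ` has at most `m` elements. Here `γ` for `M` is the restriction (an inverse in `T` of an element of `M` which is in `M`; use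
`gam_quot` for `M` itself and the hypothesis `hJ` for `M`).
`fg_R`: `J = M / γ` for `M`, `π ∘ φ`, `π ∘ i`, `redu`, `nf`, then `brn`, `bd_ar`. `fg_L`: dual (`MulOpposite`, `op_regular`, `op_closed`,
the closure in `Tᵐᵒᵖ`, `ChainL S → ChainR Sᵐᵒᵖ`).
-/

set_option autoImplicit false

namespace Pool.Agent.H.MP_830e61_lc.CH

open Pool.Agent.H.MP_830e61_lc Pool.Agent.H.MP_830e61_lc.VS

open MulOpposite

variable {S T : Type*} [Semigroup S] [Finite S] [Semigroup T]

theorem fg_R (hc : IdemClosed T) (φ : S →ₙ* T) (i : S → T) (hi : ∀ u, IsInv (φ u) (i u))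
    (hS : ChainR S) :
    Finite (Subsemigroup.closure (Set.range φ ∪ Set.range i)) ∧
      Nat.card (Subsemigroup.closure (Set.range φ ∪ Set.range i)) ≤ bnd (Nat.card S) := by
  classical
  obtain ⟨hreg, hcl⟩ := sub_reg hc φ i hi
  have hφM : ∀ u, φ u ∈ Subsemigroup.closure (Set.range φ ∪ Set.range i) :=
    fun u => Subsemigroup.subset_closure (Or.inl ⟨u, rfl⟩)
  have hiM : ∀ u, i u ∈ Subsemigroup.closure (Set.range φ ∪ Set.range i) :=
    fun u => Subsemigroup.subset_closure (Or.inr ⟨u, rfl⟩)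
  -- the generators, as elements of the subsemigroup
  obtain ⟨φ', hφ'⟩ : ∃ φ' : S →ₙ* Subsemigroup.closure (Set.range φ ∪ Set.range i),
      ∀ u, (φ' u : T) = φ u :=
    ⟨⟨fun u => ⟨φ u, hφM u⟩, fun a b => Subtype.ext (map_mul φ a b)⟩, fun u => rfl⟩
  obtain ⟨i', hi0⟩ : ∃ i' : S → Subsemigroup.closure (Set.range φ ∪ Set.range i),
      ∀ u, (i' u : T) = i u := ⟨fun u => ⟨i u, hiM u⟩, fun u => rfl⟩
  have hi' : ∀ u, IsInv (φ' u) (i' u) := by
    intro u
    constructor
    · apply Subtype.ext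
      change (φ' u : T) * (i' u : T) * (φ' u : T) = (φ' u : T)
      rw [hφ', hi0]
      exact (hi u).1
    · apply Subtype.ext
      change (i' u : T) * (φ' u : T) * (i' u : T) = (i' u : T)
      rw [hφ', hi0]
      exact (hi u).2
  have htop : Subsemigroup.closure (Set.range φ' ∪ Set.range i') = ⊤ := by
    have h1 : Set.range φ' ∪ Set.range i' =
        (Subtype.val : Subsemigroup.closure (Set.range φ ∪ Set.range i) → T) ⁻¹'
          (Set.range φ ∪ Set.range i) := by
      ext x
      constructor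
      · rintro (⟨u, hu⟩ | ⟨u, hu⟩)
        · refine Or.inl ⟨u, ?_⟩
          rw [← hφ', hu]
        · refine Or.inr ⟨u, ?_⟩
          rw [← hi0, hu]
      · rintro (⟨u, hu⟩ | ⟨u, hu⟩)
        · refine Or.inl ⟨u, Subtype.ext ?_⟩
          rw [hφ', hu]
        · refine Or.inr ⟨u, Subtype.ext ?_⟩
          rw [hi0, hu]
    rw [h1]
    exact Subsemigroup.closure_closure_coe_preimage
  -- the quotient
  obtain ⟨J, _, π, hπ, -, hcm, hker, -⟩ := gam_quot hreg hcl
  have hψ : ∀ u, IsInv ((π.comp φ') u) (π (i' u)) := by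
    intro u
    constructor
    · rw [MulHom.comp_apply, ← map_mul, ← map_mul, (hi' u).1]
    · rw [MulHom.comp_apply, ← map_mul, ← map_mul, (hi' u).2]
  have hJtop : Subsemigroup.closure (Set.range (π.comp φ') ∪ Set.range fun u => π (i' u)) = ⊤ := by
    have h1 : (Set.range (π.comp φ') ∪ Set.range fun u => π (i' u)) =
        π '' (Set.range φ' ∪ Set.range i') := by
      rw [Set.image_union, ← Set.range_comp, ← Set.range_comp]
      rfl
    rw [h1, ← MulHom.map_mclosure, htop, ← MulHom.srange_eq_map]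
    exact MulHom.srange_eq_top_iff_surjective.2 hπ
  obtain ⟨hJf, hJc⟩ := nf hcm (π.comp φ') (fun u => π (i' u)) hψ
    (fun s t => redu hcm (π.comp φ') (fun u => π (i' u)) hψ hS s t) hJtop
  have hcm' : ∀ a b : Subsemigroup.closure (Set.range φ ∪ Set.range i), a * a = a → b * b = b →
      π (a * b) = π (b * a) := by
    intro a b ha hb
    rw [map_mul, map_mul]
    exact hcm _ _ (by rw [← map_mul, ha]) (by rw [← map_mul, hb])
  obtain ⟨hf1, hf2⟩ := fg hreg hcl π (fun a b h => (hker a b).1 h) hcm' φ' i' hi'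
  rw [htop] at hf1 hf2
  have e := (Subsemigroup.topEquiv (M := Subsemigroup.closure (Set.range φ ∪ Set.range i))).toEquiv
  refine ⟨Finite.of_equiv _ e, ?_⟩
  rw [← Nat.card_congr e]
  refine hf2.trans (le_trans ?_ (bd_ar (Nat.card S)))
  calc (Nat.card J * (2 * Nat.card S) ^ 2 + 1) ^ 2 ^ Nat.card J
      ≤ (mch (Nat.card S) * (2 * Nat.card S) ^ 2 + 1) ^ 2 ^ Nat.card J :=
        Nat.pow_le_pow_left (Nat.succ_le_succ (Nat.mul_le_mul_right _ hJc)) _
    _ ≤ (mch (Nat.card S) * (2 * Nat.card S) ^ 2 + 1) ^ 2 ^ mch (Nat.card S) :=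
        Nat.pow_le_pow_right (Nat.succ_pos _) (Nat.pow_le_pow_right two_pos hJc)

end Pool.Agent.H.MP_830e61_lc.CH
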