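import Pool.Agent.H.MP_830e61_lc.CH.Emb

/-!
# Corollaries
-/

set_option autoImplicit false

namespace Pool.Agent.H.MP_830e61_lc.CH

open Pool.Agent.H.MP_830e61_lc Pool.Agent.H.MP_830e61_lc.VS

/-- `T` may be infinite, but consists of at most `m` classes of elements with common inverses. -/
theorem emb_classes (V : List Idty) (S : Type) [Semigroup S] [Finite S] (T : Type)
    [Semigroup T] (hreg : Regular T) (hc : IdemClosed T) (hs : Sat V T) (m : ℕ) (f : T → Fin m)
    (hf : ∀ a b : T, f a = f b → ∃ x, IsInv a x ∧ IsInv b x) (φ : S →ₙ* T)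
    (hφ : Function.Injective φ) :
    ∃ (T' : Type) (_ : Semigroup T'), Finite T' ∧
      Nat.card T' ≤ (m * (2 * Nat.card S) ^ 2 + 1) ^ 2 ^ m ∧
      Regular T' ∧ IdemClosed T' ∧ Sat V T' ∧ ∃ ψ : S →ₙ* T', Function.Injective ψ := by
  obtain ⟨J, iJ, π, hπ, hJr, hcm, hker, hid⟩ := gam_quot hreg hc
  choose g hg using hπ
  have hinj : Function.Injective fun j : J => f (g j) := by
    intro j k h
    have h1 := (hker _ _).2 (hf _ _ h)
    rw [hg, hg] at h1
    exact h1
  have hJ : Finite J := Finite.of_injective _ hinj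
  have hcard : Nat.card J ≤ m := by
    have h1 := Nat.card_le_card_of_injective _ hinj
    rw [Nat.card_eq_fintype_card (α := Fin m), Fintype.card_fin] at h1
    exact h1
  obtain ⟨T', iT', h1, h2, h3⟩ := emb_gam V S T hreg hc hs J π (fun a b h => (hker a b).1 h)
    (fun a b ha hb => by
      rw [map_mul, map_mul]
      exact hcm _ _ (by rw [← map_mul, ha]) (by rw [← map_mul, hb])) φ hφ
  refine ⟨T', iT', h1, h2.trans ?_, h3⟩
  exact (Nat.pow_le_pow_left (Nat.succ_le_succ (Nat.mul_le_mul_right _ hcard)) _).trans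
    (Nat.pow_le_pow_right (Nat.succ_pos _) (Nat.pow_le_pow_right (by norm_num) hcard))

theorem tame_right (S : Type*) [Semigroup S]
    (h : ∀ s t : S, (¬ ∃ x, s * x * s = s) → (¬ ∃ x, t * x * t = t) →
      s = t ∨ (∃ x, t = s * x) ∨ ∃ x, s = t * x) : Tame S := by
  refine Or.inl fun s t => ?_
  by_cases ht : ∃ x, t * x * t = t
  · exact Or.inl (Or.inl (Or.inl ht))
  by_cases hs : ∃ x, s * x * s = s
  · exact Or.inr (Or.inl (Or.inl hs))
  exact Or.inl (Or.inl (Or.inr (h s t hs ht)))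

theorem tame_left (S : Type*) [Semigroup S]
    (h : ∀ s t : S, (¬ ∃ x, s * x * s = s) → (¬ ∃ x, t * x * t = t) →
      s = t ∨ (∃ x, t = x * s) ∨ ∃ x, s = x * t) : Tame S := by
  refine Or.inr fun s t => ?_
  by_cases ht : ∃ x, t * x * t = t
  · exact Or.inl (Or.inl (Or.inl ht))
  by_cases hs : ∃ x, s * x * s = s
  · exact Or.inr (Or.inl (Or.inl hs))
  exact Or.inl (Or.inl (Or.inr (h s t hs ht)))

end Pool.Agent.H.MP_830e61_lc.CH
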