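import Pool.Agent.H.MP_830e61_lc.VS.Sat
import Pool.Agent.H.MP_830e61_lc.VS.Gam

/-!
# Finitely many idempotents: the finite quotient

`T` acts on the right on the set `T / L` (`L` is a right congruence) and on the left on `T / R`. Each class contains an
idempotent, so these sets have at most `m` elements, if `T` has `m` idempotents. `U` = the image of `T` in the product of
the two semigroups of maps. If `a`, `b` have a common inverse `x` and the same image then `x a L x b`, `a x R b x`, these are
idempotents with `x a R x b`, `a x L b x`, so `x a = x b`, `a x = b x`, `a = a x a = a x b = b x b = b`.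
-/

set_option autoImplicit false

namespace Pool.Agent.H.MP_830e61_lc.CH

open Pool.Agent.H.MP_830e61_lc Pool.Agent.H.MP_830e61_lc.VS

private def lid {T : Type} [Semigroup T] (a : T) : Set T := {t | t = a ∨ ∃ k, t = k * a}

private def rid {T : Type} [Semigroup T] (a : T) : Set T := {t | t = a ∨ ∃ k, t = a * k}

private theorem lid_self {T : Type} [Semigroup T] (a : T) : a ∈ lid a := Or.inl rfl

private theorem rid_self {T : Type} [Semigroup T] (a : T) : a ∈ rid a := Or.inl rfl

private theorem lid_sub {T : Type} [Semigroup T] {a b : T} (h : a ∈ lid b) : lid a ⊆ lid b := by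
  rintro t (ht | ⟨k, hk⟩)
  · rw [ht]
    exact h
  · rcases h with h | ⟨l, hl⟩
    · rw [hk, h]
      exact Or.inr ⟨k, rfl⟩
    · rw [hk, hl]
      exact Or.inr ⟨k * l, (mul_assoc k l b).symm⟩

private theorem rid_sub {T : Type} [Semigroup T] {a b : T} (h : a ∈ rid b) : rid a ⊆ rid b := by
  rintro t (ht | ⟨k, hk⟩)
  · rw [ht]
    exact h
  · rcases h with h | ⟨l, hl⟩
    · rw [hk, h]
      exact Or.inr ⟨k, rfl⟩
    · rw [hk, hl]
      exact Or.inr ⟨l * k, mul_assoc b l k⟩

private theorem lid_mul {T : Type} [Semigroup T] {a b : T} (t : T) (h : lid a = lid b) :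
    lid (a * t) = lid (b * t) := by
  have key : ∀ a b : T, a ∈ lid b → a * t ∈ lid (b * t) := by
    rintro a b (h1 | ⟨l, hl⟩)
    · rw [h1]
      exact lid_self _
    · rw [hl, mul_assoc]
      exact Or.inr ⟨l, rfl⟩
  refine Set.Subset.antisymm (lid_sub (key a b ?_)) (lid_sub (key b a ?_))
  · rw [← h]
    exact lid_self a
  · rw [h]
    exact lid_self b

private theorem rid_mul {T : Type} [Semigroup T] {a b : T} (t : T) (h : rid a = rid b) :
    rid (t * a) = rid (t * b) := by
  have key : ∀ a b : T, a ∈ rid b → t * a ∈ rid (t * b) := by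
    rintro a b (h1 | ⟨l, hl⟩)
    · rw [h1]
      exact rid_self _
    · rw [hl, ← mul_assoc]
      exact Or.inr ⟨l, rfl⟩
  refine Set.Subset.antisymm (rid_sub (key a b ?_)) (rid_sub (key b a ?_))
  · rw [← h]
    exact rid_self a
  · rw [h]
    exact rid_self b

private def sL (T : Type) [Semigroup T] : Setoid T := Setoid.ker (lid (T := T))

private def sR (T : Type) [Semigroup T] : Setoid T := Setoid.ker (rid (T := T))

private theorem sL_iff {T : Type} [Semigroup T] {a b : T} :
    Quotient.mk (sL T) a = Quotient.mk (sL T) b ↔ lid a = lid b := Quotient.eq (r := sL T)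

private theorem sR_iff {T : Type} [Semigroup T] {a b : T} :
    Quotient.mk (sR T) a = Quotient.mk (sR T) b ↔ rid a = rid b := Quotient.eq (r := sR T)

private def fL {T : Type} [Semigroup T] (t : T) : Function.End (Quotient (sL T)) :=
  Quotient.map (sa := sL T) (sb := sL T) (fun c => c * t) (fun _ _ h => lid_mul t h)

private def fR {T : Type} [Semigroup T] (t : T) : Function.End (Quotient (sR T)) :=
  Quotient.map (sa := sR T) (sb := sR T) (fun c => t * c) (fun _ _ h => rid_mul t h)

private theorem fL_mul {T : Type} [Semigroup T] (s t : T) : fL (s * t) = fL t * fL s := by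
  funext c
  induction c using Quotient.ind with
  | _ c =>
    show Quotient.mk (sL T) (c * (s * t)) = Quotient.mk (sL T) (c * s * t)
    rw [mul_assoc]

private theorem fR_mul {T : Type} [Semigroup T] (s t : T) : fR (s * t) = fR s * fR t := by
  funext c
  induction c using Quotient.ind with
  | _ c =>
    show Quotient.mk (sR T) (s * t * c) = Quotient.mk (sR T) (s * (t * c))
    rw [mul_assoc]

private def psi (T : Type) [Semigroup T] :
    T →ₙ* (Function.End (Quotient (sL T)))ᵐᵒᵖ × Function.End (Quotient (sR T)) where
  toFun t := (MulOpposite.op (fL t), fR t)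
  map_mul' s t := by
    rw [fL_mul, fR_mul]
    rfl

private theorem HlA_pow {a m : ℕ} (h : a ≤ m) : a ^ a ≤ m ^ m := by
  rcases Nat.eq_zero_or_pos a with h0 | h0
  · rw [h0, pow_zero]
    rcases Nat.eq_zero_or_pos m with h1 | h1
    · rw [h1, pow_zero]
    · exact Nat.one_le_pow _ _ h1
  · exact (Nat.pow_le_pow_left h a).trans (Nat.pow_le_pow_right (by omega) h)

theorem hall_quot {T : Type} [Semigroup T] (hreg : Regular T) (hE : {e : T | e * e = e}.Finite) :
    ∃ (U : Type) (_ : Semigroup U) (q : T →ₙ* U), Function.Surjective q ∧ Finite U ∧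
      Nat.card U ≤ ({e : T | e * e = e}.ncard ^ {e : T | e * e = e}.ncard) ^ 2 ∧
      ∀ a b : T, q a = q b → (∃ x, IsInv a x ∧ IsInv b x) → a = b := by
  classical
  have hfE : Finite {e : T | e * e = e} := hE
  have surL : Function.Surjective
      (fun e : {e : T | e * e = e} => Quotient.mk (sL T) e.1) := by
    intro c
    induction c using Quotient.ind with
    | _ a =>
      obtain ⟨x, hx⟩ := exists_inv hreg a
      refine ⟨⟨x * a, hx.right⟩, sL_iff.2 ?_⟩
      refine Set.Subset.antisymm (lid_sub (Or.inr ⟨x, rfl⟩)) (lid_sub (Or.inr ⟨a, ?_⟩))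
      rw [← mul_assoc, hx.1]
  have surR : Function.Surjective
      (fun e : {e : T | e * e = e} => Quotient.mk (sR T) e.1) := by
    intro c
    induction c using Quotient.ind with
    | _ a =>
      obtain ⟨x, hx⟩ := exists_inv hreg a
      refine ⟨⟨a * x, hx.left⟩, sR_iff.2 ?_⟩
      refine Set.Subset.antisymm (rid_sub (Or.inr ⟨x, rfl⟩)) (rid_sub (Or.inr ⟨a, ?_⟩))
      rw [hx.1]
  have fiL : Finite (Quotient (sL T)) := Finite.of_surjective _ surL
  have fiR : Finite (Quotient (sR T)) := Finite.of_surjective _ surR
  have cL : Nat.card (Quotient (sL T)) ≤ {e : T | e * e = e}.ncard :=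
    Nat.card_le_card_of_surjective _ surL
  have cR : Nat.card (Quotient (sR T)) ≤ {e : T | e * e = e}.ncard :=
    Nat.card_le_card_of_surjective _ surR
  have fiM : Finite ((Function.End (Quotient (sL T)))ᵐᵒᵖ × Function.End (Quotient (sR T))) := by
    have h1 : Finite (Function.End (Quotient (sL T))) :=
      inferInstanceAs (Finite (Quotient (sL T) → Quotient (sL T)))
    have h2 : Finite (Function.End (Quotient (sR T))) :=
      inferInstanceAs (Finite (Quotient (sR T) → Quotient (sR T)))
    have h3 : Finite (Function.End (Quotient (sL T)))ᵐᵒᵖ :=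
      Finite.of_equiv _ MulOpposite.opEquiv
    infer_instance
  have cM : Nat.card ((Function.End (Quotient (sL T)))ᵐᵒᵖ × Function.End (Quotient (sR T))) ≤
      ({e : T | e * e = e}.ncard ^ {e : T | e * e = e}.ncard) ^ 2 := by
    have h1 : Nat.card (Function.End (Quotient (sL T)))ᵐᵒᵖ =
        Nat.card (Quotient (sL T)) ^ Nat.card (Quotient (sL T)) := by
      rw [← Nat.card_congr (MulOpposite.opEquiv (α := Function.End (Quotient (sL T))))]
      exact Nat.card_fun
    have h2 : Nat.card (Function.End (Quotient (sR T))) =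
        Nat.card (Quotient (sR T)) ^ Nat.card (Quotient (sR T)) := Nat.card_fun
    rw [Nat.card_prod, h1, h2, sq]
    exact Nat.mul_le_mul (HlA_pow cL) (HlA_pow cR)
  refine ⟨(psi T).srange, inferInstance, (psi T).srangeRestrict,
    (psi T).srangeRestrict_surjective, Finite.of_injective _ Subtype.val_injective, ?_, ?_⟩
  · exact (Nat.card_le_card_of_injective _ Subtype.val_injective).trans cM
  · rintro a b hab ⟨x, ha, hb⟩
    have h1 : psi T a = psi T b := congrArg Subtype.val hab
    have h2 : fL a = fL b := MulOpposite.op_injective (congrArg Prod.fst h1)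
    have h3 : fR a = fR b := congrArg Prod.snd h1
    have h4 : lid (x * a) = lid (x * b) := sL_iff.1 (congrFun h2 (Quotient.mk (sL T) x))
    have h5 : rid (a * x) = rid (b * x) := sR_iff.1 (congrFun h3 (Quotient.mk (sR T) x))
    have e1 : (x * a) * (x * b) = x * b := by
      rw [← mul_assoc, ha.2]
    have e2 : (x * a) * (x * b) = x * a := by
      have h6 : x * a ∈ lid (x * b) := by
        rw [← h4]
        exact lid_self _
      rcases h6 with h6 | ⟨k, hk⟩
      · rw [h6]
        exact hb.right
      · rw [hk, mul_assoc, hb.right]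
    have e3 : x * a = x * b := e2.symm.trans e1
    have g1 : (b * x) * (a * x) = b * x := by
      rw [mul_assoc, ← mul_assoc x a x, ha.2]
    have g2 : (b * x) * (a * x) = a * x := by
      have h6 : a * x ∈ rid (b * x) := by
        rw [← h5]
        exact rid_self _
      rcases h6 with h6 | ⟨k, hk⟩
      · rw [h6]
        exact hb.left
      · rw [hk, ← mul_assoc, hb.left]
    have g3 : a * x = b * x := g2.symm.trans g1
    calc a = a * x * a := ha.1.symm
      _ = b * x * a := by rw [g3]
      _ = b * (x * a) := mul_assoc b x a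
      _ = b * (x * b) := by rw [e3]
      _ = b * x * b := (mul_assoc b x b).symm
      _ = b := hb.1

end Pool.Agent.H.MP_830e61_lc.CH
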