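import Pool.Agent.H.MP_830e61_lc.CH.HlA
import Pool.Agent.H.MP_830e61_lc.CH.FgA
import Pool.Agent.H.MP_830e61_lc.VS.QInv
import Pool.Agent.H.MP_830e61_lc.VS.Emb

/-!
# Finitely many idempotents: the embedding

`exists_inv_rep`: `SInv J` exists (`exists_SInv`), `lamI`, `lamI_mul`, `lamI_inj` (QInv) give a homomorphism of `S` into
`PInj (Yinv I ψ)` (finite, `card_PInj`, commuting idempotents `PInj_comm`) with the kernel of `ψ`; the subsemigroup generated by
the `lamI u`, `muI u` is regular (`sub_reg`, `lam_mu_lamI`, `mu_lam_muI`).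
`emb_fin`: if `V` is not `SameCont` take `T' = S` as in the proof of `emb` (VS/Emb.lean). Otherwise `J = T / γ` (`gam_quot`),
`T' = I' × U` (`hall_quot`; `map_regular`, `map_closed`, `sat_surj` for `U`; `comm_sat` for `I'`; `sat_prod`).
-/

set_option autoImplicit false

namespace Pool.Agent.H.MP_830e61_lc.CH

open Pool.Agent.H.MP_830e61_lc Pool.Agent.H.MP_830e61_lc.VS

theorem exists_inv_rep {S : Type} [Semigroup S] [Finite S] {J : Type} [Semigroup J]
    (hr : Regular J) (hcm : ∀ e f : J, e * e = e → f * f = f → e * f = f * e) (ψ : S →ₙ* J) :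
    ∃ (U : Type) (_ : Semigroup U) (c : S →ₙ* U), Finite U ∧
      Nat.card U ≤ ((Nat.card S + 1) * Nat.card S + 1) ^ ((Nat.card S + 1) * Nat.card S) ∧
      Regular U ∧ (∀ e f : U, e * e = e → f * f = f → e * f = f * e) ∧
      ∀ u v, c u = c v → ψ u = ψ v := by
  obtain ⟨I⟩ := exists_SInv hr
  have hJ : IdemComm J := hcm
  obtain ⟨hfin, hcard⟩ := card_PInj I ψ
  let lamH : S →ₙ* PInj (Yinv I ψ) := ⟨lamI I ψ, fun u v => lamI_mul I hJ ψ u v⟩
  have hinv : ∀ u, IsInv (lamH u) (muI I ψ u) := fun u =>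
    ⟨lam_mu_lamI I ψ u, mu_lam_muI I ψ u⟩
  obtain ⟨hreg, -⟩ := sub_reg (PInj_comm (Y := Yinv I ψ)).closed lamH (muI I ψ) hinv
  let c : S →ₙ* (Subsemigroup.closure (Set.range lamH ∪ Set.range (muI I ψ))) :=
    ⟨fun u => ⟨lamH u, Subsemigroup.subset_closure (Or.inl ⟨u, rfl⟩)⟩,
      fun u v => Subtype.ext (map_mul lamH u v)⟩
  refine ⟨Subsemigroup.closure (Set.range lamH ∪ Set.range (muI I ψ)), inferInstance, c,
    inferInstance, ?_, hreg, ?_, ?_⟩
  · exact (Nat.card_le_card_of_injective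
      (fun r : Subsemigroup.closure (Set.range lamH ∪ Set.range (muI I ψ)) => r.1)
      Subtype.val_injective).trans hcard
  · intro e f he hf
    exact Subtype.ext (PInj_comm _ _ (congrArg Subtype.val he) (congrArg Subtype.val hf))
  · intro u v huv
    have h1 : lamI I ψ u = lamI I ψ v := congrArg Subtype.val huv
    exact (lamI_inj I hJ ψ u v).1 h1

private theorem HlB_num (n m : ℕ) :
    n ≤ ((n + 1) * n + 1) ^ ((n + 1) * n) * (m ^ m) ^ 2 := by
  rcases Nat.eq_zero_or_pos n with h | h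
  · rw [h]
    exact Nat.zero_le _
  · have h1 : 1 ≤ (m ^ m) ^ 2 := by
      refine Nat.one_le_pow _ _ ?_
      rcases Nat.eq_zero_or_pos m with h2 | h2
      · rw [h2, pow_zero]
        exact Nat.one_pos
      · exact pow_pos h2 m
    have h2 : 1 ≤ (n + 1) * n := Nat.mul_pos (Nat.succ_pos _) h
    have h3 : n ≤ (n + 1) * n + 1 := by nlinarith
    calc n ≤ (n + 1) * n + 1 := h3
      _ = ((n + 1) * n + 1) ^ 1 := (pow_one _).symm
      _ ≤ ((n + 1) * n + 1) ^ ((n + 1) * n) := Nat.pow_le_pow_right (Nat.succ_pos _) h2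
      _ ≤ _ := Nat.le_mul_of_pos_right _ h1

theorem emb_fin (V : List Idty) (S : Type) [Semigroup S] [Finite S] (T : Type)
    [Semigroup T] (hreg : Regular T) (hc : IdemClosed T) (hs : Sat V T)
    (hE : {e : T | e * e = e}.Finite) (φ : S →ₙ* T) (hφ : Function.Injective φ) :
    ∃ (T' : Type) (_ : Semigroup T'), Finite T' ∧
      Nat.card T' ≤ ((Nat.card S + 1) * Nat.card S + 1) ^ ((Nat.card S + 1) * Nat.card S) *
        ({e : T | e * e = e}.ncard ^ {e : T | e * e = e}.ncard) ^ 2 ∧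
      Regular T' ∧ IdemClosed T' ∧ Sat V T' ∧ ∃ ψ : S →ₙ* T', Function.Injective ψ := by
  classical
  by_cases h0 : SameCont V
  swap
  · have hr : ∀ e f : T, e * e = e → f * f = f → e * f * e = e :=
      fun e f he hf => rect_of h0 hc hs he hf
    refine ⟨S, inferInstance, inferInstance, HlB_num _ _, rect_regular hreg hr φ hφ, ?_,
      sat_inj φ hφ hs, MulHom.id S, Function.injective_id⟩
    intro e f he hf
    apply hφ
    rw [map_mul, map_mul]
    exact hc _ _ (by rw [← map_mul, he]) (by rw [← map_mul, hf])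
  obtain ⟨J, iJ, π, hπ, hJr, hcm, hker, -⟩ := gam_quot hreg hc
  obtain ⟨U1, i1, c, u1, u2, u3, u4, u5⟩ := exists_inv_rep hJr hcm (π.comp φ)
  obtain ⟨U2, i2, q, hq, v1, v2, v3⟩ := hall_quot hreg hE
  refine ⟨U1 × U2, inferInstance, inferInstance, ?_, prod_regular u3 (map_regular q hq hreg),
    prod_closed (comm_closed u4) (map_closed q hq hreg hc),
    sat_prod (comm_sat h0 u4) (sat_surj q hq hreg hs), c.prod (q.comp φ), ?_⟩
  · rw [Nat.card_prod]
    exact Nat.mul_le_mul u2 v2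
  · intro u v huv
    have e1 : c u = c v := congrArg Prod.fst huv
    have e2 : q (φ u) = q (φ v) := congrArg Prod.snd huv
    have e3 : π (φ u) = π (φ v) := u5 u v e1
    exact hφ (v3 _ _ e2 ((hker _ _).1 e3))

end Pool.Agent.H.MP_830e61_lc.CH
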