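import Pool.Agent.H.MP_830e61_lc.CH.Defs
import Pool.Agent.H.MP_830e61_lc.VS.Gam

/-!
# The size of the principal ideals of a finite inverse semigroup

`mu_eq`: let `z'` be the inverse of `z` (`exists_inv`). `z J` and `z' z J` have the same size (multiply by `z'`
and by `z`), `J z = J z' z`, and for an idempotent `e` the inversion (`exists_inv`, `inv_unique`, `inv_mul`
with `comm_closed`) maps `e J` onto `J e` bijectively.
`mu_right`: `y u J` is contained in `y J`; if the sizes are equal the sets are equal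
(`Set.eq_of_subset_of_ncard_le`), and `y = y y' y` is in `y J`. `mu_left` is dual, with `mu_eq`.
-/

set_option autoImplicit false

namespace Pool.Agent.H.MP_830e61_lc.CH

open Pool.Agent.H.MP_830e61_lc Pool.Agent.H.MP_830e61_lc.VS

variable {J : Type*} [Semigroup J]

/-- the size of `z J` -/
noncomputable def mu (z : J) : ℕ := Set.ncard {x : J | ∃ y, x = z * y}

theorem mu_eq [Finite J] (hr : Regular J)
    (hcm : ∀ e f : J, e * e = e → f * f = f → e * f = f * e) (z : J) :
    mu z = Set.ncard {x : J | ∃ y, x = y * z} := by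
  have hc := comm_closed hcm
  choose inv hinv using fun a : J => exists_inv hr a
  have hinj : Function.Injective inv := by
    intro x y h
    have h1 : IsInv (inv x) x := (hinv x).symm
    have h2 : IsInv (inv x) y := by
      rw [h]
      exact (hinv y).symm
    exact inv_unique hcm h1 h2
  have hmul : ∀ a b, inv (a * b) = inv b * inv a := fun a b =>
    inv_unique hcm (hinv (a * b)) (inv_mul hc (hinv a) (hinv b))
  have hinv2 : ∀ a, inv (inv a) = a := fun a =>
    inv_unique hcm (hinv (inv a)) (hinv a).symm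
  have h1 : inv '' {x : J | ∃ y, x = z * y} = {x : J | ∃ y, x = y * inv z} := by
    ext x
    constructor
    · rintro ⟨_, ⟨y, rfl⟩, rfl⟩
      exact ⟨inv y, hmul z y⟩
    · rintro ⟨y, rfl⟩
      exact ⟨z * inv y, ⟨inv y, rfl⟩, by rw [hmul, hinv2]⟩
  have h2 : (fun x => x * inv z) '' {x : J | ∃ y, x = y * z} = {x : J | ∃ y, x = y * inv z} := by
    ext x
    constructor
    · rintro ⟨_, ⟨y, rfl⟩, rfl⟩
      exact ⟨y * z, rfl⟩
    · rintro ⟨y, rfl⟩
      refine ⟨y * inv z * z, ⟨y * inv z, rfl⟩, ?_⟩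
      show y * inv z * z * inv z = y * inv z
      have h3 := (hinv z).2
      rw [mul_assoc, mul_assoc, ← mul_assoc (inv z), h3]
  have h3 : Set.InjOn (fun x => x * inv z) {x : J | ∃ y, x = y * z} := by
    rintro _ ⟨y, rfl⟩ _ ⟨w, rfl⟩ h
    have h4 : y * z * inv z = w * z * inv z := h
    have h5 := (hinv z).1
    calc y * z = y * z * inv z * z := by rw [mul_assoc y z, mul_assoc, h5]
      _ = w * z * inv z * z := by rw [h4]
      _ = w * z := by rw [mul_assoc w z, mul_assoc, h5]
  unfold mu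
  rw [← Set.ncard_image_of_injective _ hinj, h1, ← h2, Set.ncard_image_of_injOn h3]

theorem mu_pos [Finite J] (z : J) : 1 ≤ mu z := by
  unfold mu
  rw [Nat.succ_le_iff, Set.ncard_pos]
  exact ⟨z * z, z, rfl⟩

theorem mu_le [Finite J] (z : J) : mu z ≤ Nat.card J := by
  unfold mu
  rw [← Set.ncard_univ]
  exact Set.ncard_le_ncard (Set.subset_univ _) (Set.toFinite _)

theorem mu_right [Finite J] (hr : Regular J) (y u : J) :
    mu (y * u) ≤ mu y ∧ (mu (y * u) = mu y → ∃ v, y = y * u * v) := by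
  have hsub : {x : J | ∃ v, x = y * u * v} ⊆ {x : J | ∃ v, x = y * v} := by
    rintro _ ⟨v, rfl⟩
    exact ⟨u * v, mul_assoc _ _ _⟩
  refine ⟨Set.ncard_le_ncard hsub (Set.toFinite _), fun h => ?_⟩
  have h1 := Set.eq_of_subset_of_ncard_le hsub (le_of_eq h.symm) (Set.toFinite _)
  obtain ⟨x, hx⟩ := hr y
  have h2 : y ∈ {x : J | ∃ v, x = y * v} := ⟨x * y, by rw [← mul_assoc, hx]⟩
  rw [← h1] at h2
  exact h2

theorem mu_left [Finite J] (hr : Regular J)
    (hcm : ∀ e f : J, e * e = e → f * f = f → e * f = f * e) (u y : J) :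
    mu (u * y) ≤ mu y ∧ (mu (u * y) = mu y → ∃ v, y = v * (u * y)) := by
  have hsub : {x : J | ∃ v, x = v * (u * y)} ⊆ {x : J | ∃ v, x = v * y} := by
    rintro _ ⟨v, rfl⟩
    exact ⟨v * u, (mul_assoc _ _ _).symm⟩
  rw [mu_eq hr hcm (u * y), mu_eq hr hcm y]
  refine ⟨Set.ncard_le_ncard hsub (Set.toFinite _), fun h => ?_⟩
  have h1 := Set.eq_of_subset_of_ncard_le hsub (le_of_eq h.symm) (Set.toFinite _)
  obtain ⟨x, hx⟩ := hr y
  have h2 : y ∈ {x : J | ∃ v, x = v * y} := ⟨y * x, hx.symm⟩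
  rw [← h1] at h2
  exact h2

end Pool.Agent.H.MP_830e61_lc.CH
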