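import Pool.Agent.H.MP_830e61_lc.CH.Defs
import Pool.Agent.H.MP_830e61_lc.VS.Gam

set_option autoImplicit false

namespace Pool.Agent.H.MP_830e61_lc.CH

open Pool.Agent.H.MP_830e61_lc Pool.Agent.H.MP_830e61_lc.VS

/-- the reductions of `s' t` -/
def Redu {S J : Type*} [Semigroup S] [Semigroup J] (ψ : S →ₙ* J) (i : S → J) (z : J) : Prop :=
  (∃ d, z = ψ d) ∨ (∃ d, z = i d) ∨ (∃ m, z = i m * ψ m) ∨ (∃ m x, z = i m * ψ m * ψ x) ∨
    ∃ y m, z = i y * (i m * ψ m)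

end Pool.Agent.H.MP_830e61_lc.CH
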